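import Pool.Agent.BEO.Alg

/-!
# AG: the algorithm

The input is as in `BEO/Alg.lean`. A set `W` of faces, given by their labels `fcl l _`, is blocking if the bands of the
edges can be oriented so that all corners of the other faces are good. The smallest number of faces of a blocking set is
found among the sets of the faces visited by at most `3 * k` shortest walks with given labels.
-/

set_option autoImplicit false

namespace Pool.Agent.AG

open Pool.Agent.BEO

/-- changing the colour with every step across an edge band, and with every step at a corner of a face not in `W` -/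
def relB (l : Inp) (W : List Pt) : List ((Pt × Bool) × (Pt × Bool)) := (ptO l).flatMap fun q =>
  (if memb W (fcl l q.1) then [] else [(q, (look l q.1 q.1, !q.2))]) ++ [(q, (sd q.1, !q.2)), (q, (ac q.1, !q.2))]

/-- is the set `W` of faces blocking? -/
def blk (l : Inp) (W : List Pt) : Bool :=
  (fun (lab : List ((Pt × Bool) × (Pt × Bool))) =>
    !((fl l).any fun p => decide (look lab (p, false) (p, false) = look lab (p, true) (p, true))))
    (comp (ptO l) (relB l W))

/-- changing the colour with every step across an edge of `z`, at the vertices -/
def relZ (l : Inp) (z : List Ec) : List ((Pt × Bool) × (Pt × Bool)) := (ptO l).flatMap fun q =>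
  [(q, (look l q.1 q.1, q.2)), (q, (sd q.1, xor q.2 (par z (ek q.1))))]

/-- the labels of the coloured flags -/
def pot (l : Inp) (z : List Ec) : List ((Pt × Bool) × (Pt × Bool)) := comp (ptO l) (relZ l z)

/-- does the passage from the corner of `w.1` to the corner of `w.2` cross `z`? -/
def crs (l : Inp) (z : List Ec) (w : Pt × Pt) : Bool :=
  (fun (lab : List ((Pt × Bool) × (Pt × Bool))) =>
    !decide (look lab (w.1, false) (w.1, false) = look lab (w.2, false) (w.2, false))) (pot l z)

/-- the label of a passage -/
def lbp (l : Inp) (es : List Ec) (w : Pt × Pt) : List Bool := es.map fun e => crs l (zl l e) w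

/-- the passages: pairs of flags at the same vertex -/
def psg (l : Inp) : List (Pt × Pt) := (fl l).flatMap fun p =>
  ((fl l).filter fun q => decide (p.1 = q.1)).map fun q => (p, q)

/-- the arcs of the graph of states; the mark of an arc is its last face -/
def arP (k : ℕ) (l : Inp) (es : List Ec) : List (((Pt × List Bool) × (Pt × List Bool)) × Pt) :=
  (psg l).flatMap fun w => (bvs k).map fun v =>
    (((fcl l w.1, v), (fcl l w.2, xo v (lbp l es w))), fcl l w.2)

/-- the lists of the faces visited by the canonical walks -/
def wks (k : ℕ) (l : Inp) (es : List Ec) : List (List Pt) := (fl l).flatMap fun p0 =>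
  (bfs (arP k l es) [((fcl l p0, List.replicate k false), [fcl l p0])]).map Prod.snd

/-- the candidates -/
def candP (k : ℕ) (l : Inp) : List (List Pt) := (tup ((fl l).map ek) k).flatMap fun es => cds (wks k l es) (3 * k)

/-- the largest value of `l.length + 1 - m`, `m` the number of faces of a blocking candidate -/
def bst (k : ℕ) (l : Inp) : ℕ :=
  ((candP k l).map fun c => if blk l c then (l.length + 1) - (ddp c).length else 0).foldl max 0

/-- the smallest number of faces of a blocking set -/
def nP (k : ℕ) (l : Inp) : ℕ := (l.length + 1) - bst k l

/-- the Euler genus -/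
def egA (l : Inp) : ℕ := 2 + nE l - (nV l + nF l [])

/-- the approximation of the orientable genus -/
def algG (k : ℕ) (l : Inp) : ℕ := if decide (nP k l = 0) then egA l / 2 else (nP k l + egA l - 1) / 2

end Pool.Agent.AG
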