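import Pool.Agent.AG.BlkS
import Pool.Agent.Helper58.OG.Width

/-!
# AG-DefLe: blocking sets have at least `faceDefect` faces
-/

set_option autoImplicit false

open Finset
open scoped Classical

namespace Pool.Agent.AG

open Pool.Agent.Helper35.OG Pool.Agent.Helper58.OG
open Pool.Agent.BEO (DW IsL Codes cod ec ed rp pc cyc Inp Pt Ec fl fcl look memb ddp comp bfs tup cds bvs ptO sd ac ek zl xo)

variable {n : ℕ} {G : SimpleGraph (Fin n)}

private theorem dl_list {X Y : Type} (A : Set X) (f : X → Y) (L : List Y) (h1 : ∀ x ∈ A, f x ∈ L)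
    (h2 : ∀ x ∈ A, ∀ y ∈ A, f x = f y → x = y) : Nat.card A ≤ L.length := by
  have h3 : Function.Injective (fun x : A => (⟨f x.1, List.mem_toFinset.2 (h1 x.1 x.2)⟩ : {y // y ∈ L.toFinset})) := by
    intro x y hxy
    exact Subtype.ext (h2 _ x.2 _ y.2 (congrArg Subtype.val hxy))
  have h4 := Nat.card_le_card_of_injective _ h3
  have h5 : Nat.card {y // y ∈ L.toFinset} = L.toFinset.card := by
    rw [Nat.card_eq_fintype_card, Fintype.card_coe]
  exact (h4.trans h5.le).trans (List.toFinset_card_le L)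

theorem defect_le {S : GMap G} {l : Inp} (h : Codes S l) (W : List Pt) (hb : blk l W = true) :
    faceDefect S ≤ (ddp W).length := by
  obtain ⟨κ, hκ, hW⟩ := (blk_iff h W).1 hb
  have h1 : faceDefect S ≤ Nat.card (badFaces S κ) := Nat.sInf_le ⟨κ, hκ, rfl⟩
  refine h1.trans ?_
  have hch : ∀ f : S.Face, ∃ p : Flag G, f ∈ badFaces S κ → S.face p = f ∧ κ (S.nxt p) = κ p := by
    intro f
    by_cases hf : f ∈ badFaces S κ
    · obtain ⟨p, hp, hp'⟩ := hf
      exact ⟨p, fun _ => ⟨hp, hp'⟩⟩
    · obtain ⟨p, _⟩ := face_surj S f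
      exact ⟨p, fun hf' => absurd hf' hf⟩
  choose r hr using hch
  refine dl_list (badFaces S κ) (fun f => fcl l (cod (r f))) (ddp W) ?_ ?_
  · intro f hf
    rw [Pool.Agent.BEO.mem_ddp]
    by_contra hn
    exact hW (r f) hn (hr f hf).2
  · intro f hf f' hf' he
    have h2 := (Pool.Agent.BEO.fcl_iff h (r f) (r f')).1 he
    rw [(hr f hf).1, (hr f' hf').1] at h2
    exact h2

theorem defect_le_length {S : GMap G} {l : Inp} (h : Codes S l) : faceDefect S ≤ l.length := by
  have hκ : IsBand (fun p : Flag G => if p.2 then (1 : F2) else 0) := by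
    rintro ⟨d, s⟩
    cases s
    · constructor
      · show (1 : F2) ≠ 0
        decide
      · show (1 : F2) ≠ 0
        decide
    · constructor
      · show (0 : F2) ≠ 1
        decide
      · show (0 : F2) ≠ 1
        decide
  have h1 : faceDefect S ≤ Nat.card (badFaces S fun p : Flag G => if p.2 then (1 : F2) else 0) :=
    Nat.sInf_le ⟨_, hκ, rfl⟩
  refine h1.trans ?_
  have hch : ∀ f : S.Face, ∃ p : Flag G, S.face p = f := face_surj S
  choose r hr using hch
  refine dl_list _ (fun f => (cod (r f), cod (S.nxt (r f)))) l ?_ ?_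
  · intro f _
    exact (h _).2 ⟨r f, rfl⟩
  · intro f _ f' _ he
    have h2 := Pool.Agent.BEO.cod_inj (congrArg Prod.fst he)
    rw [← hr f, ← hr f', h2]

end Pool.Agent.AG
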