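import Pool.Agent.AG.Ex
import Pool.Agent.AG.DefLe

/-!
# AG-AlgS: the algorithm computes `faceDefect`
-/

set_option autoImplicit false

open Finset
open scoped Classical

namespace Pool.Agent.AG

open Pool.Agent.Helper35.OG Pool.Agent.Helper58.OG
open Pool.Agent.BEO (Codes Inp Pt ddp)

variable {n : ℕ} {G : SimpleGraph (Fin n)}

private theorem foldl_max_le (L : List ℕ) (a B : ℕ) (ha : a ≤ B) (h : ∀ x ∈ L, x ≤ B) : L.foldl max a ≤ B := by
  induction L generalizing a with
  | nil => exact ha
  | cons x L ih =>
    rw [List.foldl_cons]
    refine ih _ ?_ ?_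
    · exact max_le ha (h x (List.mem_cons_self))
    · intro y hy
      exact h y (List.mem_cons_of_mem _ hy)

private theorem le_foldl_max_init (L : List ℕ) (a : ℕ) : a ≤ L.foldl max a := by
  induction L generalizing a with
  | nil => exact le_rfl
  | cons x L ih =>
    rw [List.foldl_cons]
    exact (le_max_left a x).trans (ih _)

private theorem le_foldl_max (L : List ℕ) (a x : ℕ) (h : x ∈ L) : x ≤ L.foldl max a := by
  induction L generalizing a with
  | nil => simp at h
  | cons y L ih =>
    rw [List.foldl_cons]
    rcases List.mem_cons.1 h with rfl | h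
    · exact (le_max_right a x).trans (le_foldl_max_init L _)
    · exact ih _ h

theorem nP_eq {S : GMap G} {l : Inp} (h : Codes S l) (hG : G.Connected) (hn : 2 ≤ n) (k : ℕ) (hk : S.eg ≤ k) :
    nP k l = faceDefect S := by
  obtain ⟨c, hc, hb, hd⟩ := exists_cand h hG hn k hk
  have hlen := defect_le_length h
  have h1 : bst k l ≤ (l.length + 1) - faceDefect S := by
    unfold bst
    apply foldl_max_le
    · exact Nat.zero_le _
    · intro x hx
      obtain ⟨c', -, rfl⟩ := List.mem_map.1 hx
      by_cases h4 : blk l c' = true
      · rw [if_pos h4]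
        have := defect_le h c' h4
        omega
      · rw [if_neg h4]
        exact Nat.zero_le _
  have h2 : (l.length + 1) - (ddp c).length ≤ bst k l := by
    unfold bst
    apply le_foldl_max
    rw [List.mem_map]
    exact ⟨c, hc, by rw [if_pos hb]⟩
  unfold nP
  omega

end Pool.Agent.AG
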