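import Pool.Agent.AG.BlkS
import Pool.Agent.Helper58.OG.Lw

/-!
# AG-BlkE: sets of faces containing a set of corners in the class of the bad corners are blocking
-/

set_option autoImplicit false

open Finset
open scoped Classical

namespace Pool.Agent.AG

open Pool.Agent.Helper35.OG Pool.Agent.Helper58.OG
open Pool.Agent.BEO (DW IsL Codes cod ec ed rp pc cyc Inp Pt Ec fl fcl look memb ddp comp bfs tup cds bvs ptO sd ac ek zl xo)

variable {n : ℕ} {G : SimpleGraph (Fin n)}

theorem blk_of {S : GMap G} {l : Inp} (h : Codes S l) {κ : Flag G → F2} (hκ : IsBand κ) (x : S.Rep → F2)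
    (hx : bad S κ + x ∈ LinearMap.range (dl S)) (W : List Pt) (hW : ∀ r : S.Rep, x r ≠ 0 → fcl l (cod r.1) ∈ W) :
    blk l W = true := by
  obtain ⟨ε, hε⟩ := hx
  have hband : IsBand (fun p => κ p + pull ε p) := by
    intro p
    constructor
    · intro h1
      have h2 : κ (across p) + pull ε (across p) = κ p + pull ε p := h1
      rw [pull_across] at h2
      exact (hκ p).1 (add_right_cancel h2)
    · intro h1
      have h2 : κ (side p) + pull ε (side p) = κ p + pull ε p := h1
      rw [pull_side] at h2
      exact (hκ p).2 (add_right_cancel h2)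
  have hbad : ∀ r : S.Rep, bad S (fun p => κ p + pull ε p) r = x r := by
    intro r
    have h2 : pull ε r.1 + pull ε (S.nxt r.1) = bad S κ r + x r := congrFun hε r
    show 1 + (κ r.1 + pull ε r.1) + (κ (S.nxt r.1) + pull ε (S.nxt r.1)) = x r
    calc 1 + (κ r.1 + pull ε r.1) + (κ (S.nxt r.1) + pull ε (S.nxt r.1)) =
        bad S κ r + (pull ε r.1 + pull ε (S.nxt r.1)) := by unfold bad; ring
      _ = (bad S κ r + bad S κ r) + x r := by rw [h2]; ring
      _ = x r := by rw [f2_add_self, zero_add]
  refine (blk_iff h W).2 ⟨fun p => κ p + pull ε p, hband, ?_⟩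
  intro p hp hcon
  have h3 : (fun p => κ p + pull ε p) (S.nxt (S.rep p).1) = (fun p => κ p + pull ε p) (S.rep p).1 := by
    rcases rep_eq S p with h4 | h4
    · rw [h4]
      exact hcon
    · rw [h4, S.nxt_nxt]
      exact hcon.symm
  have h5 := (bad_eq_one S (κ := fun p => κ p + pull ε p) (r := S.rep p)).2 h3
  rw [hbad] at h5
  have h6 := hW (S.rep p) (by rw [h5]; exact one_ne_zero)
  have h7 : fcl l (cod (S.rep p).1) = fcl l (cod p) := by
    rw [Pool.Agent.BEO.fcl_iff h]
    exact inv_rep S S.face (face_nxt S) p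
  rw [h7] at h6
  exact hp h6

end Pool.Agent.AG
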