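import Pool.Agent.AG.Defs
import Pool.Agent.BEO.FacS
import Pool.Agent.BEO.TreS

/-!
# AG-BlkS: the test for blocking sets is correct
-/

set_option autoImplicit false

open Finset
open scoped Classical

namespace Pool.Agent.AG

open Pool.Agent.Helper35.OG Pool.Agent.Helper58.OG
open Pool.Agent.BEO (DW IsL Codes cod ec ed rp pc cyc Inp Pt Ec fl fcl look memb ddp comp bfs tup cds bvs ptO sd ac ek zl xo)

variable {n : ℕ} {G : SimpleGraph (Fin n)}

private theorem blkS_ptO {S : GMap G} {l : Inp} (h : Codes S l) (x : Pt) (b : Bool) :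
    (x, b) ∈ ptO l ↔ ∃ p : Flag G, x = cod p := by
  rw [← Pool.Agent.BEO.mem_fl h]
  unfold ptO
  rw [List.mem_flatMap]
  constructor
  · rintro ⟨p, hp, hx⟩
    simp only [List.mem_cons, List.not_mem_nil, or_false, Prod.mk.injEq] at hx
    rcases hx with hx | hx
    · rw [hx.1]; exact hp
    · rw [hx.1]; exact hp
  · intro hx
    refine ⟨x, hx, ?_⟩
    cases b <;> simp

private theorem blkS_rel {S : GMap G} {l : Inp} (h : Codes S l) (W : List Pt) (x y : Pt × Bool) :
    (x, y) ∈ relB l W ↔ ∃ (p : Flag G) (b : Bool), x = (cod p, b) ∧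
      ((fcl l (cod p) ∉ W ∧ y = (cod (S.nxt p), !b)) ∨ y = (cod (side p), !b) ∨
        y = (cod (across p), !b)) := by
  unfold relB
  rw [List.mem_flatMap]
  constructor
  · rintro ⟨q, hq, hx⟩
    obtain ⟨p, hp⟩ := (blkS_ptO h q.1 q.2).1 hq
    have hq' : q = (cod p, q.2) := by rw [← hp]
    refine ⟨p, q.2, ?_⟩
    rw [List.mem_append] at hx
    rcases hx with hx | hx
    · by_cases hW : memb W (fcl l q.1) = true
      · rw [if_pos hW] at hx
        exact absurd hx List.not_mem_nil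
      · rw [if_neg hW, List.mem_singleton, Prod.mk.injEq] at hx
        refine ⟨hx.1.trans hq', Or.inl ⟨?_, ?_⟩⟩
        · intro hc
          rw [← hp] at hc
          exact hW ((Pool.Agent.BEO.memb_iff _ _).2 hc)
        · rw [hx.2, hp, Pool.Agent.BEO.look_cod h]
    · simp only [List.mem_cons, List.not_mem_nil, or_false, Prod.mk.injEq] at hx
      rw [hp, Pool.Agent.BEO.sd_cod, Pool.Agent.BEO.ac_cod] at hx
      rcases hx with hx | hx
      · exact ⟨hx.1.trans hq', Or.inr (Or.inl hx.2)⟩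
      · exact ⟨hx.1.trans hq', Or.inr (Or.inr hx.2)⟩
  · rintro ⟨p, b, hx, hy⟩
    refine ⟨(cod p, b), (blkS_ptO h _ _).2 ⟨p, rfl⟩, ?_⟩
    rw [List.mem_append]
    rcases hy with ⟨hW, hy⟩ | hy | hy
    · left
      have hW' : ¬ memb W (fcl l (cod p)) = true := fun hc =>
        hW ((Pool.Agent.BEO.memb_iff _ _).1 hc)
      show (x, y) ∈ if memb W (fcl l (cod p)) = true then [] else
        [((cod p, b), (look l (cod p) (cod p), !b))]
      rw [if_neg hW', List.mem_singleton, Pool.Agent.BEO.look_cod h, hx, hy]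
    · right
      simp only [List.mem_cons, List.not_mem_nil, or_false, Prod.mk.injEq]
      rw [Pool.Agent.BEO.sd_cod, Pool.Agent.BEO.ac_cod]
      exact Or.inl ⟨hx, hy⟩
    · right
      simp only [List.mem_cons, List.not_mem_nil, or_false, Prod.mk.injEq]
      rw [Pool.Agent.BEO.sd_cod, Pool.Agent.BEO.ac_cod]
      exact Or.inr ⟨hx, hy⟩

private theorem blkS_pts {S : GMap G} {l : Inp} (h : Codes S l) (W : List Pt) :
    ∀ r ∈ relB l W, r.1 ∈ ptO l ∧ r.2 ∈ ptO l := by
  rintro ⟨x, y⟩ hr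
  obtain ⟨p, b, hx, hy⟩ := (blkS_rel h W x y).1 hr
  refine ⟨?_, ?_⟩
  · simp only
    rw [hx]
    exact (blkS_ptO h _ _).2 ⟨p, rfl⟩
  · simp only
    rcases hy with ⟨_, hy⟩ | hy | hy
    · rw [hy]
      exact (blkS_ptO h _ _).2 ⟨_, rfl⟩
    · rw [hy]
      exact (blkS_ptO h _ _).2 ⟨_, rfl⟩
    · rw [hy]
      exact (blkS_ptO h _ _).2 ⟨_, rfl⟩

private theorem blkS_blk {S : GMap G} {l : Inp} (h : Codes S l) (W : List Pt) :
    blk l W = true ↔ ∀ p : Flag G,
      ¬ Relation.EqvGen (fun a b => (a, b) ∈ relB l W) (cod p, false) (cod p, true) := by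
  have h1 : blk l W = true ↔ ∀ x ∈ fl l, ¬ (look (comp (ptO l) (relB l W)) (x, false) (x, false) =
      look (comp (ptO l) (relB l W)) (x, true) (x, true)) := by
    unfold blk
    simp only [Bool.not_eq_true', List.any_eq_false, decide_eq_true_iff]
  rw [h1]
  constructor
  · intro h2 p h3
    apply h2 (cod p) ((Pool.Agent.BEO.mem_fl h _).2 ⟨p, rfl⟩)
    rw [Pool.Agent.BEO.comp_look (ptO l) (relB l W) (blkS_pts h W) (cod p, false) (cod p, true)
      ((blkS_ptO h _ _).2 ⟨p, rfl⟩) ((blkS_ptO h _ _).2 ⟨p, rfl⟩)]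
    exact h3
  · intro h2 x hx h3
    obtain ⟨p, rfl⟩ := (Pool.Agent.BEO.mem_fl h x).1 hx
    rw [Pool.Agent.BEO.comp_look (ptO l) (relB l W) (blkS_pts h W) (cod p, false) (cod p, true)
      ((blkS_ptO h _ _).2 ⟨p, rfl⟩) ((blkS_ptO h _ _).2 ⟨p, rfl⟩)] at h3
    exact h2 p h3

private theorem blkS_ne {a b : ZMod 2} (h : a ≠ b) : a = b + 1 := by
  revert a b; decide

private theorem blkS_shift {S : GMap G} {l : Inp} (h : Codes S l) (W : List Pt)
    {x y : Pt × Bool} (hxy : Relation.EqvGen (fun a b => (a, b) ∈ relB l W) x y) :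
    Relation.EqvGen (fun a b => (a, b) ∈ relB l W) (x.1, !x.2) (y.1, !y.2) := by
  induction hxy with
  | rel x y hr =>
    refine Relation.EqvGen.rel _ _ ?_
    obtain ⟨p, b, hx, hy⟩ := (blkS_rel h W x y).1 hr
    refine (blkS_rel h W _ _).2 ⟨p, !b, by rw [hx], ?_⟩
    rcases hy with ⟨hW, hy⟩ | hy | hy
    · exact Or.inl ⟨hW, by rw [hy]⟩
    · exact Or.inr (Or.inl (by rw [hy]))
    · exact Or.inr (Or.inr (by rw [hy]))
  | refl x => exact Relation.EqvGen.refl _
  | symm x y _ ih => exact Relation.EqvGen.symm _ _ ih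
  | trans x y z _ _ ih1 ih2 => exact Relation.EqvGen.trans _ _ _ ih1 ih2

/-- the abstract form of the colouring -/
private theorem blkS_col {X : Type} (A : X → Bool → X → Bool → Prop) (hr : ∀ p b, A p b p b)
    (hs : ∀ p b q c, A p b q c → A q c p b) (ht : ∀ p b q c r d, A p b q c → A q c r d → A p b r d)
    (hsh : ∀ p b q c, A p b q c → A p (!b) q (!c)) (hno : ∀ p, ¬ A p false p true) :
    ∃ κ : X → ZMod 2, ∀ p q, A p false q true → κ q ≠ κ p := by
  have hsym : ∀ p q, (A p false q false ∨ A p false q true) →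
      (A q false p false ∨ A q false p true) := by
    rintro p q (h1 | h1)
    · exact Or.inl (hs _ _ _ _ h1)
    · exact Or.inr (hsh _ _ _ _ (hs _ _ _ _ h1))
  let st : Setoid X :=
    { r := fun p q => A p false q false ∨ A p false q true
      iseqv := by
        refine ⟨fun p => Or.inl (hr p false), fun {p q} h1 => hsym p q h1, ?_⟩
        rintro p q r (h1 | h1) (h2 | h2)
        · exact Or.inl (ht _ _ _ _ _ _ h1 h2)
        · exact Or.inr (ht _ _ _ _ _ _ h1 h2)
        · exact Or.inr (ht _ _ _ _ _ _ h1 (hsh _ _ _ _ h2))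
        · exact Or.inl (ht _ _ _ _ _ _ h1 (hsh _ _ _ _ h2)) }
  have hrep : ∀ p : X, A p false (Quotient.mk st p).out false ∨
      A p false (Quotient.mk st p).out true := by
    intro p
    have h1 : st.r (Quotient.mk st p).out p := Quotient.exact (Quotient.out_eq _)
    exact hsym _ _ h1
  refine ⟨fun p => if A p false (Quotient.mk st p).out false then 0 else 1, ?_⟩
  intro p q hpq
  have hout : (Quotient.mk st p) = (Quotient.mk st q) := Quotient.sound (Or.inr hpq)
  have hp := hrep p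
  have hq := hrep q
  rw [← hout] at hq
  show (if A q false (Quotient.mk st q).out false then (0 : ZMod 2) else 1) ≠
    if A p false (Quotient.mk st p).out false then (0 : ZMod 2) else 1
  rw [← hout]
  by_cases h1 : A p false (Quotient.mk st p).out false
  · have h2 : ¬ A q false (Quotient.mk st p).out false := by
      intro h2
      exact hno q (ht _ _ _ _ _ _ h2 (ht _ _ _ _ _ _ (hs _ _ _ _ h1) hpq))
    rw [if_pos h1, if_neg h2]
    decide
  · have h1' : A p false (Quotient.mk st p).out true := hp.resolve_left h1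
    have h2 : A q false (Quotient.mk st p).out false := by
      by_contra h2
      have h2' := hq.resolve_left h2
      exact hno q (ht _ _ _ _ _ _ h2' (ht _ _ _ _ _ _ (hs _ _ _ _ h1') hpq))
    rw [if_neg h1, if_pos h2]
    decide

theorem blk_iff {S : GMap G} {l : Inp} (h : Codes S l) (W : List Pt) :
    blk l W = true ↔ ∃ κ : Flag G → F2, IsBand κ ∧ ∀ p, fcl l (cod p) ∉ W → κ (S.nxt p) ≠ κ p := by
  rw [blkS_blk h W]
  constructor
  · intro hno
    obtain ⟨κ, hκ⟩ := blkS_col (X := Flag G)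
      (fun p b q c => Relation.EqvGen (fun a b => (a, b) ∈ relB l W) (cod p, b) (cod q, c))
      (fun p b => Relation.EqvGen.refl _) (fun p b q c h1 => Relation.EqvGen.symm _ _ h1)
      (fun p b q c r d h1 h2 => Relation.EqvGen.trans _ _ _ h1 h2)
      (fun p b q c h1 => blkS_shift h W h1) hno
    refine ⟨κ, fun p => ⟨hκ p _ ?_, hκ p _ ?_⟩, fun p hp => hκ p _ ?_⟩
    · exact Relation.EqvGen.rel _ _ ((blkS_rel h W _ _).2 ⟨p, false, rfl, Or.inr (Or.inr rfl)⟩)
    · exact Relation.EqvGen.rel _ _ ((blkS_rel h W _ _).2 ⟨p, false, rfl, Or.inr (Or.inl rfl)⟩)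
    · exact Relation.EqvGen.rel _ _ ((blkS_rel h W _ _).2 ⟨p, false, rfl, Or.inl ⟨hp, rfl⟩⟩)
  · rintro ⟨κ, hκ, hκT⟩ p hR
    have hW : ∃ U : Pt × Bool → ZMod 2, ∀ (p : Flag G) (b : Bool),
        U (cod p, b) = κ p + if b then 1 else 0 := by
      refine ⟨fun x => if hx : ∃ p : Flag G, x.1 = cod p then κ hx.choose +
        (if x.2 then 1 else 0) else 0, ?_⟩
      intro p b
      have hx : ∃ q : Flag G, ((cod p, b) : Pt × Bool).1 = cod q := ⟨p, rfl⟩
      have e : hx.choose = p := (Pool.Agent.BEO.cod_inj hx.choose_spec).symm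
      show (if hx : ∃ p_1 : Flag G, ((cod p, b) : Pt × Bool).1 = cod p_1 then
        κ hx.choose + (if ((cod p, b) : Pt × Bool).2 then 1 else 0) else 0) = _
      rw [dif_pos hx, e]
    obtain ⟨U, hU⟩ := hW
    have hstep : ∀ (p q : Flag G) (b : Bool), κ q ≠ κ p → U (cod p, b) = U (cod q, !b) := by
      intro p q b hpq
      rw [hU, hU, blkS_ne hpq]
      have h2 : (1 : ZMod 2) + 1 = 0 := by decide
      cases b
      · simp [add_assoc, h2]
      · simp
    have hfin := eqvGen_eq U (r := fun a b => (a, b) ∈ relB l W) ?_ hR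
    · rw [hU, hU] at hfin
      simp at hfin
    · intro x y hxy
      obtain ⟨p, b, hx, hy⟩ := (blkS_rel h W x y).1 hxy
      rcases hy with ⟨hpW, hy⟩ | hy | hy
      · rw [hx, hy]
        exact hstep _ _ _ (hκT p hpW)
      · rw [hx, hy]
        exact hstep _ _ _ (hκ p).2
      · rw [hx, hy]
        exact hstep _ _ _ (hκ p).1

end Pool.Agent.AG
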