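import Pool.Agent.AG.Defs
import Pool.Agent.BEO.LookS

/-!
# AG-Cnt: the number of points visited
-/

set_option autoImplicit false

open Finset

namespace Pool.Agent.AG

open Pool.Agent.Helper35.OG
open Pool.Agent.BEO (DW)

variable {X E : Type} [DecidableEq X] 

omit [DecidableEq X] in
private theorem cnt_aux {Y : Type} [DecidableEq Y] (f : X → Y) (v : X × X × List E → List Y)
    (A : Finset Y) (L : List (X × X × List E))
    (hv : ∀ t ∈ L, v t = [f t.1] ∨ ∃ m, v t = f t.1 :: (m ++ [f t.2.1]) ∧
      m.length + 1 ≤ t.2.2.length) (hA : ∀ t ∈ L, f t.1 ∈ A ∧ f t.2.1 ∈ A) :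
    ∃ M : Finset Y, M.card ≤ (L.map fun t => t.2.2.length - 1).sum ∧
      ∀ y ∈ (L.map v).flatten, y ∈ A ∪ M := by
  induction L with
  | nil => exact ⟨∅, by simp, fun y hy => absurd hy (by simp)⟩
  | cons t L ih =>
    obtain ⟨M, hM1, hM2⟩ := ih (fun t' ht' => hv t' (List.mem_cons_of_mem _ ht'))
      (fun t' ht' => hA t' (List.mem_cons_of_mem _ ht'))
    obtain ⟨hA1, hA2⟩ := hA t List.mem_cons_self
    rcases hv t List.mem_cons_self with h | ⟨m, h, hm⟩
    · refine ⟨M, ?_, ?_⟩
      · rw [List.map_cons, List.sum_cons]
        omega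
      · intro y hy
        rw [List.map_cons, List.flatten_cons, List.mem_append, h, List.mem_singleton] at hy
        rcases hy with hy | hy
        · rw [hy]
          exact mem_union_left _ hA1
        · exact hM2 y hy
    · refine ⟨M ∪ m.toFinset, ?_, ?_⟩
      · rw [List.map_cons, List.sum_cons]
        have h1 := card_union_le M m.toFinset
        have h2 := List.toFinset_card_le m
        omega
      · intro y hy
        rw [List.map_cons, List.flatten_cons, List.mem_append, h, List.mem_cons, List.mem_append,
          List.mem_singleton] at hy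
        rcases hy with (hy | hy | hy) | hy
        · rw [hy]
          exact mem_union_left _ hA1
        · exact mem_union_right _ (mem_union_right _ (List.mem_toFinset.2 hy))
        · rw [hy]
          exact mem_union_left _ hA2
        · rcases mem_union.1 (hM2 y hy) with h3 | h3
          · exact mem_union_left _ h3
          · exact mem_union_right _ (mem_union_left _ h3)

theorem card_visited {Y : Type} [DecidableEq Y] (L : List (X × X × List E)) (f : X → Y) (v : X × X × List E → List Y)
    (hv : ∀ t ∈ L, v t = [f t.1] ∨ ∃ m, v t = f t.1 :: (m ++ [f t.2.1]) ∧ m.length + 1 ≤ t.2.2.length) :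
    (Pool.Agent.BEO.ddp (L.map v).flatten).length ≤ (L.map fun t => t.2.2.length - 1).sum + (endsOf L).card := by
  obtain ⟨M, hM1, hM2⟩ := cnt_aux f v ((endsOf L).image f) L hv (by
    intro t ht
    constructor
    · refine mem_image_of_mem f ?_
      unfold endsOf
      rw [List.mem_toFinset, List.mem_append]
      exact Or.inl (List.mem_map.2 ⟨t, ht, rfl⟩)
    · refine mem_image_of_mem f ?_
      unfold endsOf
      rw [List.mem_toFinset, List.mem_append]
      exact Or.inr (List.mem_map.2 ⟨t, ht, rfl⟩))
  rw [← List.toFinset_card_of_nodup (Pool.Agent.BEO.nodup_ddp (L.map v).flatten)]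
  have h1 : (Pool.Agent.BEO.ddp (L.map v).flatten).toFinset ⊆ (endsOf L).image f ∪ M := by
    intro y hy
    rw [List.mem_toFinset, Pool.Agent.BEO.mem_ddp] at hy
    exact hM2 y hy
  have h2 := card_le_card h1
  have h3 := card_union_le ((endsOf L).image f) M
  have h4 : ((endsOf L).image f).card ≤ (endsOf L).card := card_image_le
  omega

end Pool.Agent.AG
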