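import Pool.Agent.AG.Defs

/-!
# AG-DecA: the partition into single edges
-/

set_option autoImplicit false

open Finset

namespace Pool.Agent.AG

open Pool.Agent.Helper35.OG
open Pool.Agent.BEO (DW)

variable {X E : Type} [Fintype X] [DecidableEq X] [Fintype E] [DecidableEq E] (a b : E → X)

omit [Fintype E] [DecidableEq E] [Fintype X] [DecidableEq X] in
private theorem da_flat (l : List E) : ((l.map fun e => (a e, b e, [e])).map fun t => t.2.2).flatten = l := by
  induction l with
  | nil => rfl
  | cons e l ih =>
    rw [List.map_cons, List.map_cons, List.flatten_cons, ih]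
    rfl

omit [Fintype E] [DecidableEq E] [Fintype X] in
private theorem da_count (c : E → X) (nu : Finset E) (u : X) :
    (nu.toList.map c).count u = (nu.filter fun e => c e = u).card := by
  have h1 : (nu.toList.map c).count u = Multiset.count u (Multiset.map c nu.val) := by
    rw [← Finset.coe_toList nu, Multiset.map_coe, Multiset.coe_count]
  rw [h1, Multiset.count_map, Finset.card_def, Finset.filter_val]
  congr 1
  exact Multiset.filter_congr fun e _ => eq_comm

theorem trs_single (nu : Finset E) : Trs a b nu (nu.toList.map fun e => (a e, b e, [e])) := by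
  have e1 : (nu.toList.map fun e => (a e, b e, [e])).map (fun t => t.1) = nu.toList.map a := by
    rw [List.map_map]
    rfl
  have e2 : (nu.toList.map fun e => (a e, b e, [e])).map (fun t => t.2.1) = nu.toList.map b := by
    rw [List.map_map]
    rfl
  have hends : ∀ u, u ∈ endsOf (nu.toList.map fun e => (a e, b e, [e])) ↔ 0 < dg a b nu u := by
    intro u
    unfold endsOf
    rw [e1, e2, List.mem_toFinset, List.mem_append, List.mem_map, List.mem_map]
    constructor
    · rintro (⟨e, he, h⟩ | ⟨e, he, h⟩)
      · exact dg_pos_of a b (Finset.mem_toList.1 he) (Or.inl h)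
      · exact dg_pos_of a b (Finset.mem_toList.1 he) (Or.inr h)
    · intro h
      obtain ⟨e, he, h1 | h1⟩ := dg_pos a b h
      · exact Or.inl ⟨e, Finset.mem_toList.2 he, h1⟩
      · exact Or.inr ⟨e, Finset.mem_toList.2 he, h1⟩
  refine ⟨?_, ?_, ?_, ?_, ?_, ?_⟩
  · intro t ht
    obtain ⟨e, _, rfl⟩ := List.mem_map.1 ht
    exact DW.single e
  · intro t ht
    obtain ⟨e, _, rfl⟩ := List.mem_map.1 ht
    exact List.cons_ne_nil _ _
  · rw [da_flat]
    exact Finset.nodup_toList nu
  · intro e
    rw [da_flat, Finset.mem_toList]
  · intro u _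
    rw [e1, e2, da_count, da_count]
    rfl
  · have h1 : ((nu.toList.map fun e => (a e, b e, [e])).map fun t => t.2.2.length - 1).sum = 0 := by
      rw [List.sum_eq_zero]
      intro x hx
      rw [List.map_map] at hx
      obtain ⟨e, _, rfl⟩ := List.mem_map.1 hx
      rfl
    rw [h1, zero_add]
    congr 1
    ext u
    rw [hends, mem_vts]

end Pool.Agent.AG
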