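import Pool.Agent.AG.Defs

/-!
# AG-DecB: joining two walks
-/

set_option autoImplicit false

open Finset

namespace Pool.Agent.AG

open Pool.Agent.Helper35.OG
open Pool.Agent.BEO (DW)

variable {X E : Type} [Fintype X] [DecidableEq X] [Fintype E] [DecidableEq E] (a b : E → X)

omit [Fintype X] [Fintype E] [DecidableEq E] in
private theorem dcb_ends {L : List (X × X × List E)} {u : X} :
    u ∈ endsOf L ↔ ∃ t ∈ L, t.1 = u ∨ t.2.1 = u := by
  unfold endsOf
  rw [List.mem_toFinset, List.mem_append, List.mem_map, List.mem_map]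
  constructor
  · rintro (⟨t, ht, h⟩ | ⟨t, ht, h⟩)
    · exact ⟨t, ht, Or.inl h⟩
    · exact ⟨t, ht, Or.inr h⟩
  · rintro ⟨t, ht, h | h⟩
    · exact Or.inl ⟨t, ht, h⟩
    · exact Or.inr ⟨t, ht, h⟩

/-- the number of times `u` is an end -/
private def cu (L : List (X × X × List E)) (u : X) : ℕ :=
  (L.map fun t => t.1).count u + (L.map fun t => t.2.1).count u

omit [Fintype X] [Fintype E] [DecidableEq E] in
private theorem cu_perm {L L' : List (X × X × List E)} (h : L.Perm L') (u : X) : cu L u = cu L' u := by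
  unfold cu
  rw [(h.map fun t => t.1).count_eq, (h.map fun t => t.2.1).count_eq]

omit [Fintype X] [Fintype E] [DecidableEq E] in
private theorem cu_cons (x y : X) (w : List E) (R : List (X × X × List E)) (u : X) :
    cu ((x, y, w) :: R) u = (if x = u then 1 else 0) + (if y = u then 1 else 0) + cu R u := by
  unfold cu
  rw [List.map_cons, List.map_cons, List.count_cons, List.count_cons]
  simp only [beq_iff_eq]
  omega

omit [Fintype X] [Fintype E] [DecidableEq E] in
private theorem cu_pos {L : List (X × X × List E)} {u : X} (h : 0 < cu L u) : u ∈ endsOf L := by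
  unfold cu at h
  unfold endsOf
  rw [← List.count_append, List.count_pos_iff] at h
  exact List.mem_toFinset.2 h

omit [Fintype X] [Fintype E] [DecidableEq E] in
private theorem cu_zero {L : List (X × X × List E)} {u : X} (h : cu L u = 0) : u ∉ endsOf L := by
  unfold cu at h
  unfold endsOf
  rw [← List.count_append, List.count_eq_zero] at h
  exact fun hh => h (List.mem_toFinset.1 hh)

omit [Fintype E] [DecidableEq E] in
private theorem dcb_perm {nu : Finset E} {L L' : List (X × X × List E)} (h : Trs a b nu L)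
    (hp : L.Perm L') : Trs a b nu L' := by
  have hfl : (L.map fun t => t.2.2).flatten.Perm (L'.map fun t => t.2.2).flatten :=
    (hp.map fun t => t.2.2).flatten
  have hends : endsOf L = endsOf L' := by
    ext u
    rw [dcb_ends, dcb_ends]
    constructor
    · rintro ⟨t, ht, h1⟩
      exact ⟨t, hp.mem_iff.1 ht, h1⟩
    · rintro ⟨t, ht, h1⟩
      exact ⟨t, hp.mem_iff.2 ht, h1⟩
  refine ⟨fun t ht => h.walk t (hp.mem_iff.2 ht), fun t ht => h.ne t (hp.mem_iff.2 ht),
    hfl.nodup_iff.1 h.nodup, fun e => (h.cover e).trans hfl.mem_iff, ?_, ?_⟩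
  · intro u hu
    rw [← hends] at hu
    have h1 := h.deg u hu
    have h2 := cu_perm hp u
    unfold cu at h2
    rw [h1, h2]
  · rw [← hends, ← h.count, (hp.map fun t => t.2.2.length - 1).sum_eq]

omit [Fintype E] [DecidableEq E] in
private theorem dcb_rev {nu : Finset E} {x y : X} {w : List E} {R : List (X × X × List E)}
    (h : Trs a b nu ((x, y, w) :: R)) : Trs a b nu ((y, x, w.reverse) :: R) := by
  have hfl : (((x, y, w) :: R).map fun t => t.2.2).flatten.Perm
      (((y, x, w.reverse) :: R).map fun t => t.2.2).flatten := by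
    rw [List.map_cons, List.map_cons, List.flatten_cons, List.flatten_cons]
    exact (List.reverse_perm w).symm.append_right _
  have hends : endsOf ((x, y, w) :: R) = endsOf ((y, x, w.reverse) :: R) := by
    ext u
    rw [dcb_ends, dcb_ends]
    constructor
    · rintro ⟨t, ht, h1⟩
      rcases List.mem_cons.1 ht with h2 | h2
      · rw [h2] at h1
        exact ⟨(y, x, w.reverse), List.mem_cons_self, h1.symm⟩
      · exact ⟨t, List.mem_cons_of_mem _ h2, h1⟩
    · rintro ⟨t, ht, h1⟩
      rcases List.mem_cons.1 ht with h2 | h2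
      · rw [h2] at h1
        exact ⟨(x, y, w), List.mem_cons_self, h1.symm⟩
      · exact ⟨t, List.mem_cons_of_mem _ h2, h1⟩
  refine ⟨?_, ?_, hfl.nodup_iff.1 h.nodup, fun e => (h.cover e).trans hfl.mem_iff, ?_, ?_⟩
  · intro t ht
    rcases List.mem_cons.1 ht with h2 | h2
    · rw [h2]
      exact (h.walk _ List.mem_cons_self).reverse
    · exact h.walk t (List.mem_cons_of_mem _ h2)
  · intro t ht
    rcases List.mem_cons.1 ht with h2 | h2
    · rw [h2]
      have h3 := h.ne _ List.mem_cons_self
      exact fun h4 => h3 (List.reverse_eq_nil_iff.1 h4)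
    · exact h.ne t (List.mem_cons_of_mem _ h2)
  · intro u hu
    rw [← hends] at hu
    have h1 := h.deg u hu
    have h2 := cu_cons x y w R u
    have h3 := cu_cons y x w.reverse R u
    unfold cu at h2 h3
    rw [h1, h2, h3]
    omega
  · rw [← hends, ← h.count]
    simp only [List.map_cons, List.sum_cons, List.length_reverse]

omit [Fintype E] [DecidableEq E] in
private theorem dcb_join {nu : Finset E} {x y u : X} {w1 w2 : List E} {R : List (X × X × List E)}
    (h : Trs a b nu ((x, u, w1) :: (u, y, w2) :: R)) (hx : x ≠ u) (hy : y ≠ u) (hR : cu R u = 0) :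
    Trs a b nu ((x, y, w1 ++ w2) :: R) := by
  have hfl : (((x, u, w1) :: (u, y, w2) :: R).map fun t => t.2.2).flatten =
      (((x, y, w1 ++ w2) :: R).map fun t => t.2.2).flatten := by
    simp only [List.map_cons, List.flatten_cons, List.append_assoc]
  have hn1 := h.ne (x, u, w1) List.mem_cons_self
  have hn2 := h.ne (u, y, w2) (List.mem_cons_of_mem _ List.mem_cons_self)
  have hu' : u ∉ endsOf ((x, y, w1 ++ w2) :: R) := by
    apply cu_zero
    rw [cu_cons, if_neg hx, if_neg hy, hR]
  have hends : endsOf ((x, u, w1) :: (u, y, w2) :: R) = insert u (endsOf ((x, y, w1 ++ w2) :: R)) := by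
    ext v
    rw [mem_insert, dcb_ends, dcb_ends]
    constructor
    · rintro ⟨t, ht, h1⟩
      rcases List.mem_cons.1 ht with h2 | h2
      · rw [h2] at h1
        rcases h1 with h1 | h1
        · exact Or.inr ⟨_, List.mem_cons_self, Or.inl h1⟩
        · exact Or.inl h1.symm
      · rcases List.mem_cons.1 h2 with h3 | h3
        · rw [h3] at h1
          rcases h1 with h1 | h1
          · exact Or.inl h1.symm
          · exact Or.inr ⟨_, List.mem_cons_self, Or.inr h1⟩
        · exact Or.inr ⟨t, List.mem_cons_of_mem _ h3, h1⟩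
    · rintro (h1 | ⟨t, ht, h1⟩)
      · exact ⟨(x, u, w1), List.mem_cons_self, Or.inr h1.symm⟩
      · rcases List.mem_cons.1 ht with h2 | h2
        · rw [h2] at h1
          rcases h1 with h1 | h1
          · exact ⟨(x, u, w1), List.mem_cons_self, Or.inl h1⟩
          · exact ⟨(u, y, w2), List.mem_cons_of_mem _ List.mem_cons_self, Or.inr h1⟩
        · exact ⟨t, List.mem_cons_of_mem _ (List.mem_cons_of_mem _ h2), h1⟩
  refine ⟨?_, ?_, ?_, ?_, ?_, ?_⟩
  · intro t ht
    rcases List.mem_cons.1 ht with h2 | h2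
    · rw [h2]
      have h3 := h.walk (x, u, w1) List.mem_cons_self
      have h4 := h.walk (u, y, w2) (List.mem_cons_of_mem _ List.mem_cons_self)
      exact h3.append h4
    · exact h.walk t (List.mem_cons_of_mem _ (List.mem_cons_of_mem _ h2))
  · intro t ht
    rcases List.mem_cons.1 ht with h2 | h2
    · rw [h2]
      exact fun h4 => hn1 (List.append_eq_nil_iff.1 h4).1
    · exact h.ne t (List.mem_cons_of_mem _ (List.mem_cons_of_mem _ h2))
  · rw [← hfl]
    exact h.nodup
  · intro e
    rw [← hfl]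
    exact h.cover e
  · intro v hv
    have hvu : v ≠ u := fun hh => hu' (hh ▸ hv)
    have h1 := h.deg v (by rw [hends]; exact mem_insert_of_mem hv)
    have h2 := cu_cons x u w1 ((u, y, w2) :: R) v
    have h3 := cu_cons u y w2 R v
    have h4 := cu_cons x y (w1 ++ w2) R v
    have hne : ¬ u = v := fun hh => hvu hh.symm
    rw [if_neg hne] at h2 h3
    have h5 : cu ((x, u, w1) :: (u, y, w2) :: R) v = cu ((x, y, w1 ++ w2) :: R) v := by omega
    unfold cu at h5
    rw [h1, h5]
  · have h1 := h.count
    rw [hends, card_insert_of_notMem hu'] at h1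
    rw [← h1]
    simp only [List.map_cons, List.sum_cons, List.length_append]
    have h2 : 0 < w1.length := List.length_pos_iff.2 hn1
    have h3 : 0 < w2.length := List.length_pos_iff.2 hn2
    omega

omit [Fintype X] [DecidableEq X] [Fintype E] [DecidableEq E] in
private theorem dcb_mem {L : List (X × X × List E)} {t : X × X × List E} (h : t ∈ L) :
    ∃ R, L.Perm (t :: R) := by
  obtain ⟨A, B, rfl⟩ := List.append_of_mem h
  exact ⟨A ++ B, List.perm_middle⟩

theorem trs_join {nu : Finset E} {L : List (X × X × List E)} (h : Trs a b nu L) (u : X)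
    (h2 : (L.map fun t => t.1).count u + (L.map fun t => t.2.1).count u = 2)
    (hc : ¬ ∃ t ∈ L, t.1 = u ∧ t.2.1 = u) : ∃ L', Trs a b nu L' ∧ L'.length < L.length := by
  have hcu : cu L u = 2 := h2
  obtain ⟨t1, ht1, h1⟩ := dcb_ends.1 (cu_pos (u := u) (L := L) (by omega))
  obtain ⟨R, hR⟩ := dcb_mem ht1
  -- the first walk ends at `u`
  obtain ⟨x, w1, hT1, hxu, hcR⟩ : ∃ (x : X) (w1 : List E), Trs a b nu ((x, u, w1) :: R) ∧ x ≠ u ∧ cu R u = 1 := by
    obtain ⟨p, q, w⟩ := t1
    have hc1 : ¬ (p = u ∧ q = u) := fun hh => hc ⟨_, ht1, hh⟩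
    have h3 := cu_perm hR u
    rw [cu_cons, hcu] at h3
    rcases h1 with h1 | h1
    · have h1' : p = u := h1
      have hq : q ≠ u := fun hh => hc1 ⟨h1', hh⟩
      rw [if_pos h1', if_neg hq] at h3
      refine ⟨q, w.reverse, ?_, hq, by omega⟩
      have h4 := dcb_rev a b (dcb_perm a b h hR)
      rw [h1'] at h4
      exact h4
    · have h1' : q = u := h1
      have hp : p ≠ u := fun hh => hc1 ⟨hh, h1'⟩
      rw [if_pos h1', if_neg hp] at h3
      refine ⟨p, w, ?_, hp, by omega⟩
      have h4 := dcb_perm a b h hR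
      rw [h1'] at h4
      exact h4
  obtain ⟨t2, ht2, h5⟩ := dcb_ends.1 (cu_pos (u := u) (L := R) (by omega))
  obtain ⟨R2, hR2⟩ := dcb_mem ht2
  have ht2L : t2 ∈ L := hR.mem_iff.2 (List.mem_cons_of_mem _ ht2)
  have hlen : L.length = R2.length + 2 := by
    rw [hR.length_eq, List.length_cons, hR2.length_eq, List.length_cons]
  obtain ⟨y, w2, hT2, hyu, hcR2⟩ : ∃ (y : X) (w2 : List E),
      Trs a b nu ((x, u, w1) :: (u, y, w2) :: R2) ∧ y ≠ u ∧ cu R2 u = 0 := by
    obtain ⟨p, q, w⟩ := t2
    have hc1 : ¬ (p = u ∧ q = u) := fun hh => hc ⟨_, ht2L, hh⟩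
    have h3 := cu_perm hR2 u
    rw [cu_cons, hcR] at h3
    have h6 : Trs a b nu ((x, u, w1) :: (p, q, w) :: R2) := dcb_perm a b hT1 (hR2.cons _)
    rcases h5 with h1 | h1
    · have h1' : p = u := h1
      have hq : q ≠ u := fun hh => hc1 ⟨h1', hh⟩
      rw [if_pos h1', if_neg hq] at h3
      refine ⟨q, w, ?_, hq, by omega⟩
      rw [h1'] at h6
      exact h6
    · have h1' : q = u := h1
      have hp : p ≠ u := fun hh => hc1 ⟨hh, h1'⟩
      rw [if_pos h1', if_neg hp] at h3
      refine ⟨p, w.reverse, ?_, hp, by omega⟩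
      rw [h1'] at h6
      have h7 := dcb_rev a b (dcb_perm a b h6 (List.Perm.swap _ _ _))
      exact dcb_perm a b h7 (List.Perm.swap _ _ _)
  refine ⟨(x, y, w1 ++ w2) :: R2, dcb_join a b hT2 hxu hyu hcR2, ?_⟩
  rw [hlen, List.length_cons]
  omega

end Pool.Agent.AG
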