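import Pool.Agent.AG.DecA
import Pool.Agent.AG.DecB

/-!
# AG-DecC: a partition of a small even set into few walks

A partition into the smallest number of walks: the ends of degree 2 are the base points of closed walks with disjoint
edge sets, and the number of walks is bounded by counting.
-/

set_option autoImplicit false

open Finset

namespace Pool.Agent.AG

open Pool.Agent.Helper35.OG
open Pool.Agent.BEO (DW)

variable {X E : Type} [Fintype X] [DecidableEq X] [Fintype E] [DecidableEq E] (a b : E → X)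

omit [Fintype E] [Fintype X] [DecidableEq E] in
private theorem dcc_ends {L : List (X × X × List E)} {u : X} :
    u ∈ endsOf L ↔ ∃ t ∈ L, t.1 = u ∨ t.2.1 = u := by
  unfold endsOf
  rw [List.mem_toFinset, List.mem_append, List.mem_map, List.mem_map]
  constructor
  · rintro (⟨t, ht, h⟩ | ⟨t, ht, h⟩)
    · exact ⟨t, ht, Or.inl h⟩
    · exact ⟨t, ht, Or.inr h⟩
  · rintro ⟨t, ht, h | h⟩
    · exact Or.inl ⟨t, ht, h⟩
    · exact Or.inr ⟨t, ht, h⟩

omit [Fintype E] [Fintype X] [DecidableEq E] in
private theorem dcc_cnt {L : List (X × X × List E)} {u : X} (hu : u ∈ endsOf L) :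
    0 < (L.map fun t => t.1).count u + (L.map fun t => t.2.1).count u := by
  rw [← List.count_append, List.count_pos_iff]
  unfold endsOf at hu
  exact List.mem_toFinset.1 hu

omit [Fintype E] [Fintype X] [DecidableEq E] in
private theorem dcc_sum (L : List (X × X × List E)) :
    ∑ u ∈ endsOf L, ((L.map fun t => t.1).count u + (L.map fun t => t.2.1).count u) = 2 * L.length := by
  have h1 := List.sum_toFinset_count_eq_length ((L.map fun t => t.1) ++ L.map fun t => t.2.1)
  rw [List.length_append, List.length_map, List.length_map] at h1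
  rw [two_mul, ← h1]
  unfold endsOf
  refine Finset.sum_congr rfl fun u _ => ?_
  rw [List.count_append]

omit [Fintype E] [Fintype X] [DecidableEq E] [DecidableEq X] in
private theorem dcc_len (L : List (X × X × List E)) (h : ∀ t ∈ L, t.2.2 ≠ []) :
    (L.map fun t => t.2.2).flatten.length = (L.map fun t => t.2.2.length - 1).sum + L.length := by
  induction L with
  | nil => rfl
  | cons t L ih =>
    have h1 := ih fun x hx => h x (List.mem_cons_of_mem _ hx)
    have h2 : 0 < t.2.2.length := List.length_pos_iff.2 (h t List.mem_cons_self)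
    rw [List.map_cons, List.map_cons, List.flatten_cons, List.length_append, List.sum_cons, h1,
      List.length_cons]
    omega

private theorem dcc_even {l : List E} (hl : l.Nodup) {F : X} (h : DW a b F F l) :
    bd a b (ind l.toFinset) = 0 := by
  funext v
  have h1 := h.bd v
  have h2 : (bd a b (ind l.toFinset)) v =
      ∑ e, ind l.toFinset e * ((if a e = v then 1 else 0) + (if b e = v then 1 else 0)) := rfl
  have h3 : ∑ e, ind l.toFinset e * ((if a e = v then (1 : F2) else 0) + (if b e = v then 1 else 0)) =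
      ∑ e ∈ l.toFinset, ((if a e = v then (1 : F2) else 0) + (if b e = v then 1 else 0)) := by
    unfold ind
    simp only [ite_mul, one_mul, zero_mul]
    rw [Finset.sum_ite_mem, Finset.univ_inter]
  rw [h2, h3, List.sum_toFinset _ hl]
  refine (Eq.trans ?_ h1).trans ?_
  · refine congrArg List.sum (List.map_congr_left fun e _ => ?_)
    by_cases h5 : a e = v <;> by_cases h6 : b e = v <;> simp [h5, h6]
  · show _ = (0 : F2)
    by_cases h5 : F = v
    · rw [if_pos h5]
      exact f2_add_self _
    · rw [if_neg h5, add_zero]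

theorem dec {nu : Finset E} (hnu : bd a b (ind nu) = 0) {k : ℕ} (hc : nu.card ≤ (vts a b nu).card + k)
    (hf : Few a b nu k) : ∃ L, Trs a b nu L ∧ L.length ≤ 3 * k := by
  classical
  have hex : ∃ n, ∃ L, Trs a b nu L ∧ L.length = n := ⟨_, _, trs_single a b nu, rfl⟩
  obtain ⟨L, hL, hLn⟩ := Nat.find_spec hex
  have hmin : ∀ L', Trs a b nu L' → L.length ≤ L'.length := by
    intro L' hL'
    rw [hLn]
    exact Nat.find_min' hex ⟨L', hL', rfl⟩
  refine ⟨L, hL, ?_⟩
  have h2 : ∀ u ∈ endsOf L, 2 ≤ dg a b nu u := by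
    intro u hu
    have h3 := dcc_cnt hu
    rw [← hL.deg u hu] at h3
    obtain ⟨r, hr⟩ := dg_even a b hnu u
    omega
  have hcl : ∀ u ∈ endsOf L, dg a b nu u = 2 → ∃ t ∈ L, t.1 = u ∧ t.2.1 = u := by
    intro u hu hd
    by_contra hcon
    rw [hL.deg u hu] at hd
    obtain ⟨L', hL', hlt⟩ := trs_join a b hL u hd hcon
    exact absurd (hmin L' hL') (not_le.2 hlt)
  obtain ⟨U, hU⟩ : ∃ U : Finset X, U = (endsOf L).filter fun u => dg a b nu u = 2 := ⟨_, rfl⟩
  have hUm : ∀ u, u ∈ U ↔ u ∈ endsOf L ∧ dg a b nu u = 2 := by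
    intro u
    rw [hU, mem_filter]
  have hch : ∀ u : X, ∃ l : List E, u ∈ U → ∃ t ∈ L, t.1 = u ∧ t.2.1 = u ∧ t.2.2 = l := by
    intro u
    by_cases hu : u ∈ U
    · obtain ⟨t, ht, h3, h4⟩ := hcl u ((hUm u).1 hu).1 ((hUm u).1 hu).2
      exact ⟨t.2.2, fun _ => ⟨t, ht, h3, h4, rfl⟩⟩
    · exact ⟨[], fun h => absurd h hu⟩
  choose l hl using hch
  have hnd := hL.nodup
  rw [List.nodup_flatten] at hnd
  have hdis : ∀ t ∈ L, ∀ t' ∈ L, t ≠ t' → List.Disjoint t.2.2 t'.2.2 := by
    intro t ht t' ht' hne
    have h3 := List.pairwise_map.1 hnd.2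
    have hsy : Std.Symm (fun s s' : X × X × List E => List.Disjoint s.2.2 s'.2.2) :=
      ⟨fun _ _ h => h.symm⟩
    exact List.Pairwise.forall h3 ht ht' hne
  have hq : U.card ≤ k := by
    have h3 : (U.image fun u => (l u).toFinset).card = U.card := by
      refine Finset.card_image_of_injOn ?_
      intro u hu u' hu' he
      obtain ⟨t, ht, e1, e2, e3⟩ := hl u hu
      obtain ⟨t', ht', e1', e2', e3'⟩ := hl u' hu'
      by_contra hne
      have h4 : t ≠ t' := by
        intro h5
        rw [h5] at e1
        exact hne (e1.symm.trans e1')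
      have h5 := hdis t ht t' ht' h4
      obtain ⟨e, he'⟩ := List.exists_mem_of_ne_nil _ (hL.ne t ht)
      have h6 : e ∈ (l u).toFinset := by
        rw [List.mem_toFinset, ← e3]
        exact he'
      beta_reduce at he
      rw [he, List.mem_toFinset, ← e3'] at h6
      exact h5 he' h6
    rw [← h3]
    refine hf _ ?_ ?_
    · intro Q hQ
      obtain ⟨u, hu, rfl⟩ := Finset.mem_image.1 hQ
      obtain ⟨t, ht, e1, e2, e3⟩ := hl u hu
      rw [← e3]
      refine ⟨?_, ?_, ?_⟩
      · intro e he
        rw [List.mem_toFinset] at he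
        exact (hL.cover e).2 (List.mem_flatten.2 ⟨t.2.2, List.mem_map.2 ⟨t, ht, rfl⟩, he⟩)
      · obtain ⟨e, he'⟩ := List.exists_mem_of_ne_nil _ (hL.ne t ht)
        exact ⟨e, List.mem_toFinset.2 he'⟩
      · have h4 := hL.walk t ht
        rw [e1, e2] at h4
        exact dcc_even a b (hnd.1 _ (List.mem_map.2 ⟨t, ht, rfl⟩)) h4
    · intro Q hQ Q' hQ' hne
      obtain ⟨u, hu, rfl⟩ := Finset.mem_image.1 hQ
      obtain ⟨u', hu', rfl⟩ := Finset.mem_image.1 hQ'
      obtain ⟨t, ht, e1, e2, e3⟩ := hl u hu
      obtain ⟨t', ht', e1', e2', e3'⟩ := hl u' hu'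
      rw [Finset.disjoint_left]
      intro e he he'
      rw [List.mem_toFinset] at he he'
      refine hdis t ht t' ht' ?_ (by rw [e3]; exact he) (by rw [e3']; exact he')
      intro h5
      refine hne ?_
      rw [← e3, ← e3', h5]
  have hsum : 4 * (endsOf L).card ≤ 2 * L.length + 2 * U.card := by
    rw [← dcc_sum L]
    have h3 : 4 * (endsOf L).card = ∑ _u ∈ endsOf L, 4 := by
      rw [Finset.sum_const, smul_eq_mul, mul_comm]
    have h4 : 2 * U.card = ∑ u ∈ endsOf L, if dg a b nu u = 2 then 2 else 0 := by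
      rw [← Finset.sum_filter, ← hU, Finset.sum_const, smul_eq_mul, mul_comm]
    rw [h3, h4, ← Finset.sum_add_distrib]
    refine Finset.sum_le_sum fun u hu => ?_
    rw [← hL.deg u hu]
    have h5 := h2 u hu
    by_cases h6 : dg a b nu u = 2
    · rw [if_pos h6]
      omega
    · rw [if_neg h6]
      obtain ⟨r, hr⟩ := dg_even a b hnu u
      omega
  have hcard : nu.card = (L.map fun t => t.2.2.length - 1).sum + L.length := by
    rw [← dcc_len L hL.ne, ← List.toFinset_card_of_nodup hL.nodup]
    congr 1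
    ext e
    rw [List.mem_toFinset]
    exact hL.cover e
  have hct := hL.count
  omega

end Pool.Agent.AG
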