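import Pool.Agent.AG.Alg
import Pool.Agent.BEO.DWB
import Pool.Agent.Helper35.OG.Dims
import Pool.Agent.Helper58.OG.Width

/-!
# AG: passages and walks

`DW s t F H w` (BEO/Dat.lean) says that the list `w` of edges is a walk from `F` to `H` in the graph whose edge `e` has
the ends `s e`, `t e`.
-/

set_option autoImplicit false

open Finset

namespace Pool.Agent.AG

open Pool.Agent.Helper35.OG
open Pool.Agent.BEO (DW)

section graphs

variable {X E : Type} [Fintype X] [DecidableEq X] [Fintype E] [DecidableEq E] (a b : E → X)

/-- the ends of a list of walks (first end, last end, edges) -/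
def endsOf (L : List (X × X × List E)) : Finset X := (L.map (fun t => t.1) ++ L.map fun t => t.2.1).toFinset

/-- `L` is a partition of `nu` into walks; every end of a walk is met by `nu` only at the ends of the walks. -/
structure Trs (nu : Finset E) (L : List (X × X × List E)) : Prop where
  walk : ∀ t ∈ L, DW a b t.1 t.2.1 t.2.2
  ne : ∀ t ∈ L, t.2.2 ≠ []
  nodup : (L.map fun t => t.2.2).flatten.Nodup
  cover : ∀ e, e ∈ nu ↔ e ∈ (L.map fun t => t.2.2).flatten
  deg : ∀ u ∈ endsOf L, dg a b nu u = (L.map fun t => t.1).count u + (L.map fun t => t.2.1).count u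
  count : (L.map fun t => t.2.2.length - 1).sum + (endsOf L).card = (vts a b nu).card

/-- Every family of disjoint nonempty even subsets of `nu` has at most `k` members. -/
def Few (nu : Finset E) (k : ℕ) : Prop := ∀ Q : Finset (Finset E),
  (∀ q ∈ Q, q ⊆ nu ∧ q.Nonempty ∧ bd a b (ind q) = 0) → (∀ q ∈ Q, ∀ q' ∈ Q, q ≠ q' → Disjoint q q') → Q.card ≤ k

end graphs

section maps

variable {V : Type} [Fintype V] [DecidableEq V] {G : SimpleGraph V} [DecidableRel G.Adj]

/-- a passage: two flags at the same vertex; the curve goes from the corner of the first one to the corner of the other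
one -/
abbrev Pas (G : SimpleGraph V) : Type := {x : Flag G × Flag G // x.1.1.fst = x.2.1.fst}

variable (S : GMap G)

/-- the first face of a passage -/
def pf (e : Pas G) : S.Face := S.face e.1.1

/-- the second face of a passage -/
def pg (e : Pas G) : S.Face := S.face e.1.2

/-- the first corner of a passage -/
noncomputable def pa (e : Pas G) : S.Rep := S.rep e.1.1

/-- the second corner of a passage -/
noncomputable def pb (e : Pas G) : S.Rep := S.rep e.1.2

/-- the class of a set of passages -/
noncomputable def cP : (Pas G → F2) →ₗ[F2] ((S.Rep → F2) ⧸ LinearMap.range (dl S)) :=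
  (LinearMap.range (dl S)).mkQ.comp (bd (pa S) (pb S))

/-- the difference of a function on the flags along a passage -/
def dP (P : Flag G → F2) (e : Pas G) : F2 := P e.1.1 + P e.1.2

/-- the corners of a list of passages -/
noncomputable def xr (w : List (Pas G)) : S.Rep → F2 := (w.map fun e => (Pi.single (pa S e) 1 + Pi.single (pb S e) 1 : S.Rep → F2)).sum

end maps

end Pool.Agent.AG
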