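import Pool.Agent.AG.Defs
import Pool.Agent.BEO.TreS
import Pool.Agent.BEO.ExL
import Pool.Agent.EXG.Dual

/-!
# AG-EsA: the chains of the closed walks through the edges detect the classes
-/

set_option autoImplicit false

open Finset
open scoped Classical

namespace Pool.Agent.AG

open Pool.Agent.Helper35.OG Pool.Agent.Helper58.OG
open Pool.Agent.BEO (DW IsL Codes cod ec ed rp pc cyc Inp Pt Ec fl fcl look memb ddp comp bfs tup cds bvs ptO sd ac ek zl xo)

variable {n : ℕ} {G : SimpleGraph (Fin n)}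

open Pool.Agent.EXG (pr)

private theorem ea_two (a : F2) : a + a = 0 := CharTwo.add_self_eq_zero a

private theorem ea_as (p : Flag G) : across (side p) = side (across p) := rfl

private theorem ea_z {Q : Flag G → F2} (hC : Pool.Agent.EXG.Cyc Q) (p : Flag G) :
    Q (rp (ed p)) + Q (side (rp (ed p))) = Q p + Q (side p) := by
  have h1 : (rp (ed p)).1.edge = p.1.edge := congrArg Subtype.val (Pool.Agent.BEO.ed_rp (ed p))
  have h2 := (SimpleGraph.dart_edge_eq_iff _ _).1 h1
  have h3 : (rp (ed p)) = p ∨ rp (ed p) = side p ∨ rp (ed p) = across p ∨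
      rp (ed p) = side (across p) := by
    rcases p with ⟨d, s⟩
    generalize rp (ed (d, s)) = q at h2 ⊢
    rcases q with ⟨d', s'⟩
    simp only at h2
    rcases h2 with rfl | rfl
    · cases s <;> cases s' <;> simp [side, across]
    · cases s <;> cases s' <;> simp [side, across]
  have e1 := hC p
  rcases h3 with h3 | h3 | h3 | h3
  · rw [h3]
  · rw [h3, side_side, add_comm]
  · rw [h3, e1]
  · rw [h3, side_side, add_comm, e1]

private theorem ea_cyc {S : GMap G} {Q : Flag G → F2} (hN : ∀ p, Q (S.nxt p) = Q p) {z : G.edgeSet → F2}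
    (hz : ∀ p, z (ed p) = Q p + Q (side p)) : z ∈ cyc G := by
  intro v
  have h2 := sum_inv (fun p : Flag G => S.nxt p) S.nxt_nxt S.nxt_ne
    (fun p : Flag G => if p.1.fst = v then Q p else 0) (fun p => by rw [S.nxt_fst, hN])
  rw [Finset.sum_congr rfl fun (d : G.Dart) _ => hz (d, true), Finset.sum_filter]
  refine Eq.trans ?_ h2
  rw [Fintype.sum_prod_type]
  refine Finset.sum_congr rfl fun d _ => ?_
  rw [Fintype.sum_bool]
  have h3 : side ((d, true) : Flag G) = (d, false) := rfl
  rw [h3]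
  split_ifs
  · rfl
  · rw [add_zero]

theorem chain_span {S : GMap G} {l : Inp} (h : Codes S l) (hG : G.Connected) (hn : 2 ≤ n) (P : G.edgeSet → Flag G → F2)
    (hP : ∀ e, IsL S (pc (zl l (ec e))) (P e)) (x : S.Rep → F2) (hx : x ∈ orth (inc S)) (h0 : ∀ e, pr S x (P e) = 0) :
    x ∈ LinearMap.range (dl S) := by
  apply Pool.Agent.EXG.dual
  rintro Q ⟨hN, hC⟩
  obtain ⟨z, hz0⟩ : ∃ z : G.edgeSet → F2, ∀ e, z e = Q (rp e) + Q (side (rp e)) := ⟨_, fun _ => rfl⟩
  have hz : ∀ p, z (ed p) = Q p + Q (side p) := fun p => by rw [hz0, ea_z hC]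
  have hL : IsL S z Q := ⟨hN, fun p => (hz p).symm⟩
  have hzc : z ∈ cyc G := ea_cyc hN hz
  obtain ⟨Q', hQ'⟩ : ∃ Q' : Flag G → F2, ∀ p, Q' p = ∑ e, z e * P e p := ⟨_, fun _ => rfl⟩
  have hL' : IsL S z Q' := by
    constructor
    · intro p
      rw [hQ', hQ']
      exact Finset.sum_congr rfl fun e _ => by rw [(hP e).1 p]
    · intro p
      rw [hQ', hQ', ← Finset.sum_add_distrib, Pool.Agent.BEO.zc_span h hG hn z hzc (ed p)]
      exact Finset.sum_congr rfl fun e _ => by rw [← (hP e).2 p, mul_add]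
  -- the sum is a function of the vertex
  obtain ⟨c, hc⟩ : ∃ c : Fin n → F2, ∀ p : Flag G, Q p + Q' p = c p.1.fst := by
    refine ⟨fun v => if hv : ∃ p : Flag G, p.1.fst = v then Q hv.choose + Q' hv.choose else 0, fun p => ?_⟩
    have hv : ∃ q : Flag G, q.1.fst = p.1.fst := ⟨p, rfl⟩
    show _ = if hv : ∃ q : Flag G, q.1.fst = p.1.fst then Q hv.choose + Q' hv.choose else 0
    rw [dif_pos hv]
    exact Pool.Agent.BEO.isL_vert hL hL' hv.choose_spec.symm
  have e1 : ∑ r : S.Rep, x r * c r.1.1.fst = 0 := by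
    have h1 : ∀ r : S.Rep, x r * c r.1.1.fst = ∑ v, c v * (x r * (if r.1.1.fst = v then 1 else 0)) := by
      intro r
      rw [Finset.sum_eq_single r.1.1.fst]
      · rw [if_pos rfl]
        ring
      · intro v _ hv
        rw [if_neg (Ne.symm hv)]
        ring
      · intro hv
        exact absurd (Finset.mem_univ _) hv
    rw [Finset.sum_congr rfl fun r _ => h1 r, Finset.sum_comm]
    refine Finset.sum_eq_zero fun v _ => ?_
    rw [← Finset.mul_sum]
    have h2 : ∑ r : S.Rep, x r * (if r.1.1.fst = v then 1 else 0) = 0 := mem_orth.1 hx (Sum.inl v)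
    rw [h2, mul_zero]
  have e2 : ∑ r : S.Rep, x r * Q' r.1 = 0 := by
    have h1 : ∀ r : S.Rep, x r * Q' r.1 = ∑ e, z e * (x r * P e r.1) := by
      intro r
      rw [hQ', Finset.mul_sum]
      exact Finset.sum_congr rfl fun e _ => by ring
    rw [Finset.sum_congr rfl fun r _ => h1 r, Finset.sum_comm]
    refine Finset.sum_eq_zero fun e _ => ?_
    rw [← Finset.mul_sum]
    have h2 : ∑ r : S.Rep, x r * P e r.1 = 0 := h0 e
    rw [h2, mul_zero]
  show ∑ r : S.Rep, x r * Q r.1 = 0
  have h3 : ∀ r : S.Rep, x r * Q r.1 = x r * c r.1.1.fst + x r * Q' r.1 := by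
    intro r
    rw [← hc r.1]
    have := ea_two (x r * Q' r.1)
    linear_combination -this
  rw [Finset.sum_congr rfl fun r _ => h3 r, Finset.sum_add_distrib, e1, e2, add_zero]

theorem pr_dl {S : GMap G} {z : G.edgeSet → F2} {P : Flag G → F2} (hP : IsL S z P) (ε : ERep G → F2) :
    pr S (dl S ε) P = 0 := by
  refine Pool.Agent.EXG.pr_dl S ε ⟨hP.1, fun p => ?_⟩
  rw [hP.2 (across p), hP.2 p, Pool.Agent.BEO.ed_across]

end Pool.Agent.AG
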