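import Pool.Agent.AG.Defs

/-!
# AG-EsB: the dimension of the space of the classes
-/

set_option autoImplicit false

open Finset

namespace Pool.Agent.AG

open Pool.Agent.Helper35.OG Pool.Agent.Helper58.OG
open Pool.Agent.BEO (DW)

variable {V : Type} [Fintype V] [DecidableEq V] {G : SimpleGraph V} [DecidableRel G.Adj]

variable (S : GMap G)

theorem finrank_classes [Nontrivial V] (hG : G.Connected) :
    ((Module.finrank F2 ((orth (inc S)).map (LinearMap.range (dl S)).mkQ) : ℕ) : ℤ) ≤ S.eg := by
  let f := ((LinearMap.range (dl S)).mkQ).domRestrict (orth (inc S))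
  have h3 := LinearMap.finrank_range_add_finrank_ker f
  have h4 : LinearMap.range f = (orth (inc S)).map (LinearMap.range (dl S)).mkQ := LinearMap.range_domRestrict _ _
  have h5 : Module.finrank F2 (LinearMap.range (dl S)) ≤ Module.finrank F2 (LinearMap.ker f) := by
    let g : (LinearMap.range (dl S)) →ₗ[F2] LinearMap.ker f :=
      { toFun := fun x => ⟨⟨x.1, dl_le_orth S x.2⟩, by
          rw [LinearMap.mem_ker]
          show (LinearMap.range (dl S)).mkQ x.1 = 0
          rw [Submodule.mkQ_apply, Submodule.Quotient.mk_eq_zero]
          exact x.2⟩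
        map_add' := by intro x y; rfl
        map_smul' := by intro c x; rfl }
    apply LinearMap.finrank_le_finrank_of_injective (f := g)
    intro x y hxy
    have := congrArg (fun z => z.1.1) hxy
    exact Subtype.ext this
  rw [h4] at h3
  have h6 := finrank_dl S hG
  have h7 := finrank_orth_inc S hG
  have h8 := card_flag S
  have h9 : Fintype.card (Flag G) = 4 * Nat.card G.edgeSet := by
    rw [Fintype.card_prod, Fintype.card_bool, G.dart_card_eq_twice_card_edges, Nat.card_eq_fintype_card,
      ← SimpleGraph.edgeFinset_card]
    ring
  unfold GMap.eg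
  omega

end Pool.Agent.AG
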