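import Pool.Agent.AG.Sep
import Pool.Agent.AG.EsA
import Pool.Agent.AG.EsB

/-!
# AG-Es: `k` edges whose closed walks detect the classes
-/

set_option autoImplicit false

open Finset
open scoped Classical

namespace Pool.Agent.AG

open Pool.Agent.Helper35.OG Pool.Agent.Helper58.OG
open Pool.Agent.BEO (DW IsL Codes cod ec ed rp pc cyc Inp Pt Ec fl fcl look memb ddp comp bfs tup cds bvs ptO sd ac ek zl xo)

variable {n : ℕ} {G : SimpleGraph (Fin n)}

open Pool.Agent.EXG (pr)

private noncomputable def prL (S : GMap G) (P : Flag G → F2) : (S.Rep → F2) →ₗ[F2] F2 where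
  toFun x := pr S x P
  map_add' x y := by
    unfold pr
    rw [← Finset.sum_add_distrib]
    refine Finset.sum_congr rfl fun r _ => ?_
    rw [Pi.add_apply, add_mul]
  map_smul' c x := by
    unfold pr
    rw [RingHom.id_apply, smul_eq_mul, Finset.mul_sum]
    refine Finset.sum_congr rfl fun r _ => ?_
    rw [Pi.smul_apply, smul_eq_mul, mul_assoc]

theorem exists_es {S : GMap G} {l : Inp} (h : Codes S l) (hG : G.Connected) (hn : 2 ≤ n) (k : ℕ) (hk : S.eg ≤ k)
    (P : G.edgeSet → Flag G → F2) (hP : ∀ e, IsL S (pc (zl l (ec e))) (P e)) : ∃ es : List G.edgeSet, es.length = k ∧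
      ∀ x ∈ orth (inc S), (∀ e ∈ es, pr S x (P e) = 0) → x ∈ LinearMap.range (dl S) := by
  have : Nontrivial (Fin n) := Fin.nontrivial_iff_two_le.2 hn
  have : Nonempty G.edgeSet := by
    obtain ⟨p, -⟩ := exists_flag hG (⟨0, by omega⟩ : Fin n)
    exact ⟨ed p⟩
  have hfr : Module.finrank F2 ((orth (inc S)).map (LinearMap.range (dl S)).mkQ) ≤ k := by
    have h1 := (finrank_classes S hG).trans hk
    exact_mod_cast h1
  have hle : ∀ e, LinearMap.range (dl S) ≤ LinearMap.ker (prL S (P e)) := by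
    rintro e _ ⟨ε, rfl⟩
    rw [LinearMap.mem_ker]
    exact pr_dl (hP e) ε
  obtain ⟨f, hf⟩ : ∃ f : G.edgeSet → ((orth (inc S)).map (LinearMap.range (dl S)).mkQ) →ₗ[F2] F2,
      f = fun e => ((LinearMap.range (dl S)).liftQ (prL S (P e)) (hle e)).comp
        ((orth (inc S)).map (LinearMap.range (dl S)).mkQ).subtype := ⟨_, rfl⟩
  have hfapp : ∀ e x (hx : x ∈ orth (inc S)),
      f e ⟨(LinearMap.range (dl S)).mkQ x, Submodule.mem_map_of_mem hx⟩ = pr S x (P e) := by
    intro e x hx
    rw [hf]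
    rfl
  obtain ⟨es, hes, hes'⟩ := exists_sep k hfr f (by
    rintro ⟨z, hz⟩ hz0
    obtain ⟨x, hx, rfl⟩ := Submodule.mem_map.1 hz
    have h1 : ∀ e, pr S x (P e) = 0 := fun e => by
      rw [← hfapp e x hx]
      exact hz0 e
    have h2 := chain_span h hG hn P hP x hx h1
    apply Subtype.ext
    show (LinearMap.range (dl S)).mkQ x = 0
    rw [Submodule.mkQ_apply, Submodule.Quotient.mk_eq_zero]
    exact h2)
  refine ⟨es, hes, fun x hx hx0 => ?_⟩
  have h3 := hes' ⟨(LinearMap.range (dl S)).mkQ x, Submodule.mem_map_of_mem hx⟩ (fun e he => by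
    rw [hfapp e x hx]
    exact hx0 e he)
  have h4 : (LinearMap.range (dl S)).mkQ x = 0 := congrArg Subtype.val h3
  rwa [Submodule.mkQ_apply, Submodule.Quotient.mk_eq_zero] at h4

end Pool.Agent.AG
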