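import Pool.Agent.AG.Defs
import Pool.Agent.Helper35.OG.Upper
import Pool.Agent.Helper58.OG.Lw

/-!
# AG-Fd: the smallest number of bad faces

The minimum is attained, and it is zero exactly for orientable maps.
-/

set_option autoImplicit false

open Finset

namespace Pool.Agent.AG

open Pool.Agent.Helper35.OG Pool.Agent.Helper58.OG
open Pool.Agent.BEO (DW)

variable {V : Type} [Fintype V] [DecidableEq V] {G : SimpleGraph V} [DecidableRel G.Adj]

variable (S : GMap G)

theorem exists_min : ∃ κ : Flag G → F2, IsBand κ ∧ Nat.card (badFaces S κ) = faceDefect S := by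
  obtain ⟨κ₀, hκ₀⟩ := exists_band (G := G)
  have hne : {n | ∃ κ, IsBand κ ∧ Nat.card (badFaces S κ) = n}.Nonempty := ⟨_, κ₀, hκ₀, rfl⟩
  obtain ⟨κ, hκ, h⟩ := Nat.sInf_mem hne
  exact ⟨κ, hκ, h⟩

theorem fd_zero : faceDefect S = 0 ↔ S.Orientable := by
  constructor
  · intro h0
    obtain ⟨κ, hκ, h⟩ := exists_min S
    rw [h0] at h
    refine ⟨κ, hκ, fun p hp => ?_⟩
    have hmem : S.face p ∈ badFaces S κ := ⟨p, rfl, hp⟩
    have hfin : Finite (badFaces S κ) := inferInstance
    have hn : Nonempty (badFaces S κ) := ⟨⟨_, hmem⟩⟩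
    have := Nat.card_pos (α := badFaces S κ)
    omega
  · rintro ⟨κ, hκ, h⟩
    have hempty : badFaces S κ = ∅ := by
      ext f
      constructor
      · rintro ⟨p, -, hp⟩
        exact absurd hp (h p)
      · intro hf
        exact absurd hf (Set.notMem_empty f)
    have hc : Nat.card (badFaces S κ) = 0 := by
      rw [hempty]
      simp
    exact Nat.le_zero.1 (Nat.sInf_le ⟨κ, hκ, hc⟩)

end Pool.Agent.AG
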