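import Pool.Agent.AG.Defs
import Pool.Agent.Helper35.OG.Reduce

/-!
# AG-MinA: smallest even sets of a class

A smallest even subset `nu` of `mu` of the class of `mu` contains no nonempty even set of class 0.
-/

set_option autoImplicit false

open Finset

namespace Pool.Agent.AG

open Pool.Agent.Helper35.OG
open Pool.Agent.BEO (DW)

variable {X E : Type} [Fintype X] [DecidableEq X] [Fintype E] [DecidableEq E] (a b : E → X)

variable {H : Type} [AddCommGroup H] [Module F2 H] (c : (E → F2) →ₗ[F2] H)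

theorem min_class {k : ℕ} (hk : Module.finrank F2 ((LinearMap.ker (bd a b)).map c) ≤ k) (mu : Finset E)
    (hmu : bd a b (ind mu) = 0) : ∃ nu ⊆ mu, bd a b (ind nu) = 0 ∧ c (ind nu) = c (ind mu) ∧
      nu.card ≤ (vts a b nu).card + k ∧ Few a b nu k := by
  classical
  obtain ⟨nu, ⟨h1, h2, h3⟩, hmin⟩ := Set.exists_min_image
    {ν : Finset E | ν ⊆ mu ∧ bd a b (ind ν) = 0 ∧ c (ind ν) = c (ind mu)} Finset.card (Set.toFinite _)
    ⟨mu, Finset.Subset.refl _, hmu, rfl⟩
  have hno : ∀ ν ⊆ nu, bd a b (ind ν) = 0 → c (ind ν) = 0 → ¬ ν.Nonempty := by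
    intro ν hν h4 h5 hne
    have hsd := ind_sdiff hν
    have h6 := hmin (nu \ ν) ⟨Finset.sdiff_subset.trans h1, by rw [hsd, map_add, h2, h4, add_zero],
      by rw [hsd, map_add, h3, h5, add_zero]⟩
    have h7 : (nu \ ν).card < nu.card := Finset.card_lt_card (Finset.sdiff_ssubset hν hne)
    omega
  refine ⟨nu, h1, h2, h3, ?_, ?_⟩
  · by_contra hcon
    push Not at hcon
    obtain ⟨ν, hν1, hν2, hν3, hν4⟩ := exists_even a b c hk nu (vts a b nu)
      (fun e he => ⟨(mem_vts a b).2 (dg_pos_of a b he (Or.inl rfl)),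
        (mem_vts a b).2 (dg_pos_of a b he (Or.inr rfl))⟩) hcon
    exact hno ν hν1 hν3 hν4 hν2
  · intro Q hQ hdis
    by_contra hcon
    push Not at hcon
    let Ψ : (Q → F2) →ₗ[F2] (E → F2) :=
      { toFun := fun x => ∑ q : Q, x q • ind q.1
        map_add' := fun x y => by
          simp only [Pi.add_apply, add_smul, Finset.sum_add_distrib]
        map_smul' := fun r x => by
          simp only [Pi.smul_apply, RingHom.id_apply, Finset.smul_sum, smul_smul, smul_eq_mul] }
    have hΨ : ∀ x, Ψ x = ∑ q : Q, x q • ind q.1 := fun x => rfl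
    have hbd : ∀ x, bd a b (Ψ x) = 0 := by
      intro x
      rw [hΨ, map_sum]
      refine Finset.sum_eq_zero fun q _ => ?_
      rw [map_smul, (hQ q.1 q.2).2.2, smul_zero]
    have hfin : k < Module.finrank F2 (Q → F2) := by
      rw [Module.finrank_fintype_fun_eq_card, Fintype.card_coe]
      exact hcon
    obtain ⟨x, hx, hcx⟩ := dim_kernel a b c hk Ψ hbd hfin
    obtain ⟨q0, hq0⟩ : ∃ q0, x q0 ≠ 0 := by
      by_contra h
      push Not at h
      exact hx (funext h)
    have hap : ∀ e, (Ψ x) e = ∑ q : Q, x q * ind q.1 e := by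
      intro e
      rw [hΨ, Finset.sum_apply]
      rfl
    obtain ⟨e, he⟩ := (hQ q0.1 q0.2).2.1
    have hval : (Ψ x) e = x q0 := by
      rw [hap, Finset.sum_eq_single q0]
      · have h4 : ind q0.1 e = 1 := if_pos he
        rw [h4, mul_one]
      · intro q _ hq
        have h4 : e ∉ q.1 := fun h5 =>
          Finset.disjoint_left.1 (hdis q.1 q.2 q0.1 q0.2 (fun h => hq (Subtype.ext h))) h5 he
        have h5 : ind q.1 e = 0 := if_neg h4
        rw [h5, mul_zero]
      · intro h
        exact absurd (Finset.mem_univ _) h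
    refine hno (supp (Ψ x)) ?_ ?_ ?_ ⟨e, mem_supp.2 (by rw [hval]; exact hq0)⟩
    · intro e' he'
      rw [mem_supp, hap] at he'
      by_contra hn
      refine he' (Finset.sum_eq_zero fun q _ => ?_)
      have h4 : e' ∉ q.1 := fun h => hn ((hQ q.1 q.2).1 h)
      have h5 : ind q.1 e' = 0 := if_neg h4
      rw [h5, mul_zero]
    · rw [ind_supp]
      exact hbd x
    · rw [ind_supp]
      exact hcx

end Pool.Agent.AG
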