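import Pool.Agent.AG.Defs
import Pool.Agent.Helper58.OG.Width
import Pool.Agent.Helper35.OG.Orient

/-!
# AG-Star: the bad corners as the boundary of a set of passages
-/

set_option autoImplicit false

open Finset

namespace Pool.Agent.AG

open Pool.Agent.Helper35.OG Pool.Agent.Helper58.OG
open Pool.Agent.BEO (DW)

variable {V : Type} [Fintype V] [DecidableEq V] {G : SimpleGraph V} [DecidableRel G.Adj]

variable (S : GMap G)

theorem bad_vertex {κ : Flag G → F2} (hκ : IsBand κ) (v : V) :
    ∑ r : S.Rep, bad S κ r * (if r.1.1.fst = v then 1 else 0) = 0 := by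
  have h1 : wt κ (fun p => if p.1.fst = v then 1 else 0) = 0 := by
    apply wt_zero side side_side (fun p => (hκ p).2)
    intro p
    rfl
  unfold wt at h1
  rw [sum_rep S] at h1
  choose z hz1 hz2 using wt_corner S κ
  have h2 : ∑ r : S.Rep, z r * (if r.1.1.fst = v then 1 else 0) = 0 := by
    have h3 : 2 * ∑ r : S.Rep, z r * (if r.1.1.fst = v then 1 else 0) = 0 := by
      refine Eq.trans ?_ h1
      rw [Finset.mul_sum]
      apply Finset.sum_congr rfl
      intro r _
      show 2 * (z r * (if r.1.1.fst = v then 1 else 0)) =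
        (if (if r.1.1.fst = v then (1 : F2) else 0) = 1 then sg κ r.1 else 0) +
        (if (if (S.nxt r.1).1.fst = v then (1 : F2) else 0) = 1 then sg κ (S.nxt r.1) else 0)
      rw [S.nxt_fst]
      by_cases h : r.1.1.fst = v
      · rw [if_pos h, if_pos h, if_pos rfl, if_pos rfl, hz1, mul_one]
      · rw [if_neg h, if_neg h, if_neg zero_ne_one, if_neg zero_ne_one]; ring
    linarith
  have h4 := congrArg (Int.cast : ℤ → F2) h2
  push_cast at h4
  refine Eq.trans ?_ h4
  apply Finset.sum_congr rfl
  intro r _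
  rw [hz2]

private theorem bd_sum {X E : Type} [Fintype X] [DecidableEq X] [Fintype E] [DecidableEq E]
    (a b : E → X) (mu : Finset E) (r : X) :
    bd a b (ind mu) r = ∑ e ∈ mu, ((if a e = r then (1 : F2) else 0) + (if b e = r then 1 else 0)) := by
  show ∑ e, ind mu e * ((if a e = r then 1 else 0) + (if b e = r then 1 else 0)) = _
  unfold ind
  simp only [ite_mul, one_mul, zero_mul]
  rw [Finset.sum_ite_mem, Finset.univ_inter]

theorem exists_mu {κ : Flag G → F2} (hκ : IsBand κ) : ∃ mu : Finset (Pas G),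
    bd (pa S) (pb S) (ind mu) = bad S κ ∧ ∀ e ∈ mu, pf S e ∈ badFaces S κ ∧ pg S e ∈ badFaces S κ := by
  classical
  rcases isEmpty_or_nonempty S.Rep with he | he
  · refine ⟨∅, ?_, ?_⟩
    · funext r
      exact isEmptyElim r
    · intro e he'
      exact absurd he' (Finset.notMem_empty e)
  have h0 : ∀ v : V, ∃ t : S.Rep, ∀ s : S.Rep, bad S κ s = 1 → s.1.1.fst = v →
      bad S κ t = 1 ∧ t.1.1.fst = v := by
    intro v
    by_cases h : ∃ s : S.Rep, bad S κ s = 1 ∧ s.1.1.fst = v
    · obtain ⟨s, hs⟩ := h
      exact ⟨s, fun _ _ _ => hs⟩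
    · obtain ⟨r0⟩ := he
      exact ⟨r0, fun s h1 h2 => absurd ⟨s, h1, h2⟩ h⟩
  choose d hd using h0
  let g : {s : S.Rep // bad S κ s = 1} → Pas G := fun s =>
    ⟨((d s.1.1.1.fst).1, s.1.1), (hd s.1.1.1.fst s.1 s.2 rfl).2⟩
  have hg : Function.Injective g := by
    intro s s' h
    have h1 : (g s).1.2 = (g s').1.2 := by rw [h]
    exact Subtype.ext (Subtype.ext h1)
  refine ⟨Finset.univ.image g, ?_, ?_⟩
  · funext r
    rw [bd_sum, Finset.sum_image (fun x _ y _ h => hg h)]
    have h1 : ∀ s : {s : S.Rep // bad S κ s = 1}, pa S (g s) = d s.1.1.1.fst := fun s => rep_rep S _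
    have h2 : ∀ s : {s : S.Rep // bad S κ s = 1}, pb S (g s) = s.1 := fun s => rep_rep S _
    have h3 : ∑ s : {s : S.Rep // bad S κ s = 1},
        ((if pa S (g s) = r then (1 : F2) else 0) + (if pb S (g s) = r then 1 else 0)) =
        ∑ s : S.Rep, bad S κ s * ((if d s.1.1.fst = r then (1 : F2) else 0) +
          (if s = r then 1 else 0)) := by
      have h4 : ∀ s : {s : S.Rep // bad S κ s = 1},
          ((if pa S (g s) = r then (1 : F2) else 0) + (if pb S (g s) = r then 1 else 0)) =
          (fun s : S.Rep => (if d s.1.1.fst = r then (1 : F2) else 0) +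
            (if s = r then 1 else 0)) s.1 := by
        intro s
        rw [h1, h2]
      rw [Finset.sum_congr rfl fun s _ => h4 s, ← Finset.sum_subtype
        (Finset.univ.filter fun s : S.Rep => bad S κ s = 1) (by intro x; simp)
        (fun s : S.Rep => (if d s.1.1.fst = r then (1 : F2) else 0) + (if s = r then 1 else 0)),
        Finset.sum_filter]
      refine Finset.sum_congr rfl fun s _ => ?_
      rcases f2_cases (bad S κ s) with h | h
      · rw [h, if_neg zero_ne_one, zero_mul]
      · rw [h, if_pos rfl, one_mul]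
    rw [h3]
    simp only [mul_add, Finset.sum_add_distrib]
    have h5 : ∑ s : S.Rep, bad S κ s * (if s = r then (1 : F2) else 0) = bad S κ r := by
      simp
    have h6 : ∑ s : S.Rep, bad S κ s * (if d s.1.1.fst = r then (1 : F2) else 0) = 0 := by
      by_cases hr : ∃ s0 : S.Rep, bad S κ s0 = 1 ∧ d s0.1.1.fst = r
      · obtain ⟨s0, hb0, hs0⟩ := hr
        have h7 := (hd s0.1.1.fst s0 hb0 rfl).2
        rw [hs0] at h7
        refine Eq.trans ?_ (bad_vertex S hκ r.1.1.fst)
        refine Finset.sum_congr rfl fun s _ => ?_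
        rcases f2_cases (bad S κ s) with h | h
        · rw [h, zero_mul, zero_mul]
        · have h8 : d s.1.1.fst = r ↔ s.1.1.fst = r.1.1.fst := by
            constructor
            · intro h9
              have h10 := (hd s.1.1.fst s h rfl).2
              rw [h9] at h10
              exact h10.symm
            · intro h9
              rw [h9, h7]
              exact hs0
          rw [if_congr h8 rfl rfl]
      · refine Finset.sum_eq_zero fun s _ => ?_
        rcases f2_cases (bad S κ s) with h | h
        · rw [h, zero_mul]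
        · rw [if_neg (fun h9 => hr ⟨s, h, h9⟩), mul_zero]
    rw [h5, h6, zero_add]
  · intro e he'
    obtain ⟨s, _, rfl⟩ := Finset.mem_image.1 he'
    exact ⟨⟨(d s.1.1.1.fst).1, rfl, (bad_eq_one S).1 (hd s.1.1.1.fst s.1 s.2 rfl).1⟩,
      ⟨s.1.1, rfl, (bad_eq_one S).1 s.2⟩⟩

end Pool.Agent.AG
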