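import Pool.Agent.AG.DimP
import Pool.Agent.AG.MinA
import Pool.Agent.AG.Star

/-!
# AG-MinN: a small even set of passages in the class of the bad corners
-/

set_option autoImplicit false

open Finset

namespace Pool.Agent.AG

open Pool.Agent.Helper35.OG Pool.Agent.Helper58.OG
open Pool.Agent.BEO (DW)

variable {V : Type} [Fintype V] [DecidableEq V] {G : SimpleGraph V} [DecidableRel G.Adj]

variable (S : GMap G)

theorem exists_nu [Nontrivial V] (hG : G.Connected) (k : ℕ) (hk : S.eg ≤ k) {κ : Flag G → F2} (hκ : IsBand κ) :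
    ∃ nu : Finset (Pas G), bd (pf S) (pg S) (ind nu) = 0 ∧
      bad S κ + bd (pa S) (pb S) (ind nu) ∈ LinearMap.range (dl S) ∧
      (vts (pf S) (pg S) nu).card ≤ Nat.card (badFaces S κ) ∧ nu.card ≤ (vts (pf S) (pg S) nu).card + k ∧
      Few (pf S) (pg S) nu k := by
  obtain ⟨mu, h1, h2⟩ := exists_mu S hκ
  have hmu : bd (pf S) (pg S) (ind mu) = 0 := by
    funext f
    rw [bd_pas, h1]
    exact bad_face S hκ f
  have hk' : Module.finrank F2 ((LinearMap.ker (bd (pf S) (pg S))).map (cP S)) ≤ k := by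
    have h3 := finrank_cP S hG
    omega
  obtain ⟨nu, hsub, hbd, hcl, hcard, hfew⟩ := min_class (pf S) (pg S) (cP S) hk' mu hmu
  refine ⟨nu, hbd, ?_, ?_, hcard, hfew⟩
  · have h4 : bd (pa S) (pb S) (ind nu) - bd (pa S) (pb S) (ind mu) ∈ LinearMap.range (dl S) :=
      (Submodule.Quotient.eq _).1 hcl
    rw [h1] at h4
    have h5 : bad S κ + bd (pa S) (pb S) (ind nu) = bd (pa S) (pb S) (ind nu) - bad S κ := by
      funext r
      show bad S κ r + bd (pa S) (pb S) (ind nu) r = bd (pa S) (pb S) (ind nu) r - bad S κ r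
      have h6 := f2_add_self (bad S κ r)
      linear_combination h6
    rw [h5]
    exact h4
  · have h3 : ((vts (pf S) (pg S) nu : Finset S.Face) : Set S.Face) ⊆ badFaces S κ := by
      intro f hf
      rw [Finset.mem_coe, mem_vts] at hf
      obtain ⟨e, he, h | h⟩ := dg_pos _ _ hf
      · rw [← h]
        exact (h2 e (hsub he)).1
      · rw [← h]
        exact (h2 e (hsub he)).2
    have h4 := Set.ncard_le_ncard h3 (Set.toFinite _)
    rw [Set.ncard_coe_finset] at h4
    exact h4

end Pool.Agent.AG
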