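import Pool.Agent.AG.Defs
import Pool.Agent.EXG.Base

/-!
# AG-XrS: the corners of a list of passages
-/

set_option autoImplicit false

open Finset

namespace Pool.Agent.AG

open Pool.Agent.Helper35.OG Pool.Agent.Helper58.OG
open Pool.Agent.BEO (DW)

variable {V : Type} [Fintype V] [DecidableEq V] {G : SimpleGraph V} [DecidableRel G.Adj]

variable (S : GMap G)

open Pool.Agent.EXG (pr)

private theorem xrs_cons (e : Pas G) (w : List (Pas G)) :
    xr S (e :: w) = (Pi.single (pa S e) 1 + Pi.single (pb S e) 1) + xr S w := by
  unfold xr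
  rw [List.map_cons, List.sum_cons]

private theorem xrs_nil : xr S ([] : List (Pas G)) = 0 := by
  unfold xr
  rw [List.map_nil, List.sum_nil]

private theorem xrs_lin (w : List (Pas G)) (f : S.Rep → F2) :
    ∑ r : S.Rep, xr S w r * f r = (w.map fun e => f (pa S e) + f (pb S e)).sum := by
  induction w with
  | nil =>
    rw [xrs_nil, List.map_nil, List.sum_nil]
    simp
  | cons e w ih =>
    rw [xrs_cons, List.map_cons, List.sum_cons, ← ih]
    simp only [Pi.add_apply, add_mul, Finset.sum_add_distrib]
    congr 1
    congr 1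
    · rw [Finset.sum_eq_single (pa S e)]
      · rw [Pi.single_eq_same, one_mul]
      · intro r _ hr
        rw [Pi.single_eq_of_ne hr, zero_mul]
      · intro h
        exact absurd (Finset.mem_univ _) h
    · rw [Finset.sum_eq_single (pb S e)]
      · rw [Pi.single_eq_same, one_mul]
      · intro r _ hr
        rw [Pi.single_eq_of_ne hr, zero_mul]
      · intro h
        exact absurd (Finset.mem_univ _) h

private theorem xrs_val (w : List (Pas G)) (r : S.Rep) :
    xr S w r = (w.map fun e => ((if pa S e = r then (1 : F2) else 0) + (if pb S e = r then 1 else 0))).sum := by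
  rw [← xrs_lin S w (fun s => if s = r then (1 : F2) else 0)]
  rw [Finset.sum_eq_single r]
  · rw [if_pos rfl, mul_one]
  · intro s _ hs
    rw [if_neg hs, mul_zero]
  · intro h
    exact absurd (Finset.mem_univ _) h

private theorem xrs_dw {F H : S.Face} {w : List (Pas G)} (hw : DW (pf S) (pg S) F H w) (f : S.Face) :
    (w.map fun e => ((if pf S e = f then (1 : F2) else 0) + (if pg S e = f then 1 else 0))).sum =
      (if F = f then 1 else 0) + (if H = f then 1 else 0) := by
  induction hw with
  | nil F =>
    rw [List.map_nil, List.sum_nil, f2_add_self]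
  | cons F K H e l h1 _ ih =>
    rw [List.map_cons, List.sum_cons, ih]
    rcases h1 with ⟨h1, h2⟩ | ⟨h1, h2⟩
    · rw [h1, h2]
      calc ((if F = f then (1 : F2) else 0) + (if K = f then 1 else 0)) +
            ((if K = f then 1 else 0) + (if H = f then 1 else 0))
          = (if F = f then (1 : F2) else 0) + ((if K = f then (1 : F2) else 0) + (if K = f then 1 else 0)) +
            (if H = f then 1 else 0) := by ring
        _ = _ := by rw [f2_add_self, add_zero]
    · rw [h1, h2]
      calc ((if K = f then (1 : F2) else 0) + (if F = f then 1 else 0)) +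
            ((if K = f then 1 else 0) + (if H = f then 1 else 0))
          = (if F = f then (1 : F2) else 0) + ((if K = f then (1 : F2) else 0) + (if K = f then 1 else 0)) +
            (if H = f then 1 else 0) := by ring
        _ = _ := by rw [f2_add_self, add_zero]

theorem xr_append (w w' : List (Pas G)) : xr S (w ++ w') = xr S w + xr S w' := by
  unfold xr
  rw [List.map_append, List.sum_append]

theorem xr_vertex (w : List (Pas G)) (v : V) : ∑ r : S.Rep, xr S w r * (if r.1.1.fst = v then 1 else 0) = 0 := by
  rw [xrs_lin S w (fun r => if r.1.1.fst = v then 1 else 0)]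
  have h1 : ∀ e : Pas G, (if (pa S e).1.1.fst = v then (1 : F2) else 0) + (if (pb S e).1.1.fst = v then 1 else 0) = 0 := by
    intro e
    have h2 : (pa S e).1.1.fst = (pb S e).1.1.fst := by
      unfold pa pb
      rw [rep_fst, rep_fst]
      exact e.2
    rw [h2, f2_add_self]
  simp only [h1]
  rw [List.map_const', List.sum_replicate, smul_zero]

theorem xr_face {F H : S.Face} {w : List (Pas G)} (hw : DW (pf S) (pg S) F H w) (f : S.Face) :
    ∑ r : S.Rep, xr S w r * (if S.face r.1 = f then 1 else 0) = (if F = f then 1 else 0) + (if H = f then 1 else 0) := by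
  rw [xrs_lin S w (fun r => if S.face r.1 = f then 1 else 0), ← xrs_dw S hw f]
  have h1 : ∀ p : Flag G, S.face (S.rep p).1 = S.face p := inv_rep S S.face (face_nxt S)
  have h2 : (fun e : Pas G => ((if S.face (pa S e).1 = f then (1 : F2) else 0) + (if S.face (pb S e).1 = f then 1 else 0))) =
      fun e => ((if pf S e = f then (1 : F2) else 0) + (if pg S e = f then 1 else 0)) := by
    funext e
    unfold pa pb pf pg
    rw [h1, h1]
  rw [h2]

theorem pr_xr (w : List (Pas G)) {P : Flag G → F2} (hP : NInv S P) : pr S (xr S w) P = (w.map (dP P)).sum := by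
  unfold pr
  rw [xrs_lin S w (fun r => P r.1)]
  have h1 : ∀ p : Flag G, P (S.rep p).1 = P p := inv_rep S P hP
  have h2 : (fun e : Pas G => P (pa S e).1 + P (pb S e).1) = dP P := by
    funext e
    unfold pa pb dP
    rw [h1, h1]
  rw [h2]

theorem xr_mem (w : List (Pas G)) (r : S.Rep) (h : xr S w r ≠ 0) : ∃ e ∈ w, r = pa S e ∨ r = pb S e := by
  rw [xrs_val] at h
  by_contra hcon
  push Not at hcon
  apply h
  apply List.sum_eq_zero
  intro x hx
  rw [List.mem_map] at hx
  obtain ⟨e, he, rfl⟩ := hx
  obtain ⟨h1, h2⟩ := hcon e he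
  rw [if_neg (fun h => h1 h.symm), if_neg (fun h => h2 h.symm), add_zero]

theorem bd_xr (w : List (Pas G)) (h : w.Nodup) : bd (pa S) (pb S) (ind w.toFinset) = xr S w := by
  funext r
  rw [xrs_val, ← List.sum_toFinset _ h]
  show ∑ e : Pas G, ind w.toFinset e * ((if pa S e = r then 1 else 0) + (if pb S e = r then 1 else 0)) = _
  unfold ind
  simp only [ite_mul, one_mul, zero_mul]
  rw [Finset.sum_ite_mem, Finset.univ_inter]

end Pool.Agent.AG
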