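import Pool.Agent.AG.WksS
import Pool.Agent.AG.XrS
import Pool.Agent.AG.MinN
import Pool.Agent.AG.DecC
import Pool.Agent.AG.Cnt
import Pool.Agent.AG.Es
import Pool.Agent.AG.BlkE
import Pool.Agent.AG.Fd

/-!
# AG-Ex: there is a blocking candidate with at most `faceDefect` faces
-/

set_option autoImplicit false

open Finset
open scoped Classical

namespace Pool.Agent.AG

open Pool.Agent.Helper35.OG Pool.Agent.Helper58.OG
open Pool.Agent.BEO (DW IsL Codes cod ec ed rp pc cyc Inp Pt Ec fl fcl look memb ddp comp bfs tup cds bvs ptO sd ac ek zl xo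
  zc_mem exists_L mem_cds mem_tup mem_fl ek_cod ed_rp fcl_iff)
open Pool.Agent.EXG (pr)

variable {n : ℕ} {G : SimpleGraph (Fin n)}

private theorem xr_flat (S : GMap G) (L : List (List (Pas G))) : xr S L.flatten = (L.map (xr S)).sum := by
  induction L with
  | nil => rfl
  | cons w L ih => rw [List.flatten_cons, xr_append, ih, List.map_cons, List.sum_cons]

theorem exists_cand {S : GMap G} {l : Inp} (h : Codes S l) (hG : G.Connected) (hn : 2 ≤ n) (k : ℕ) (hk : S.eg ≤ k) :
    ∃ c ∈ candP k l, blk l c = true ∧ (ddp c).length ≤ faceDefect S := by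
  have hnt : Nontrivial (Fin n) := Fin.nontrivial_iff_two_le.2 hn
  -- the labels of the faces
  obtain ⟨fc, hfc⟩ : ∃ fc : S.Face → Pt, ∀ p, fc (S.face p) = fcl l (cod p) := by
    refine ⟨fun f => fcl l (cod (Classical.choose (face_surj S f))), fun p => ?_⟩
    exact (fcl_iff h _ _).2 (Classical.choose_spec (face_surj S (S.face p)))
  -- the chains
  have hP0 : ∀ e : G.edgeSet, ∃ P, IsL S (pc (zl l (ec e))) P := fun e => exists_L S _ (zc_mem h hG hn e)
  choose P hP using hP0
  obtain ⟨es, hes, hes'⟩ := exists_es h hG hn k hk P hP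
  obtain ⟨κ, hκ, hκn⟩ := exists_min S
  obtain ⟨nu, hnu1, hnu2, hnu3, hnu4, hnu5⟩ := exists_nu S hG k hk hκ
  obtain ⟨L, hL, hLk⟩ := dec (pf S) (pg S) hnu1 hnu4 hnu5
  -- the canonical walks
  have hw0 : ∀ t : S.Face × S.Face × List (Pas G), ∃ (w' : List (Pas G)) (v : List Pt), t ∈ L →
      (DW (pf S) (pg S) t.1 t.2.1 w' ∧ v ∈ wks k l (es.map ec) ∧
        (∀ e ∈ es, (w'.map (dP (P e))).sum = (t.2.2.map (dP (P e))).sum) ∧
        (∀ x ∈ w', fc (pf S x) ∈ v ∧ fc (pg S x) ∈ v) ∧
        (v = [fc t.1] ∨ ∃ m, v = fc t.1 :: (m ++ [fc t.2.1]) ∧ m.length + 1 ≤ t.2.2.length)) := by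
    intro t
    by_cases ht : t ∈ L
    · obtain ⟨w', v, h1, h2, h3, h4, h5⟩ := wks_complete h k es hes P hP fc hfc t.1 t.2.1 t.2.2 (hL.walk t ht)
      exact ⟨w', v, fun _ => ⟨h1, h2, h3, h4, h5⟩⟩
    · exact ⟨[], [], fun h' => absurd h' ht⟩
  choose w' v hwv using hw0
  refine ⟨(L.map v).flatten, ?_, ?_, ?_⟩
  · unfold candP
    rw [List.mem_flatMap]
    refine ⟨es.map ec, ?_, ?_⟩
    · rw [mem_tup]
      refine ⟨by rw [List.length_map, hes], ?_⟩
      intro x hx
      obtain ⟨e, -, rfl⟩ := List.mem_map.1 hx
      refine List.mem_map.2 ⟨cod (rp e), (mem_fl h _).2 ⟨_, rfl⟩, ?_⟩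
      rw [ek_cod, ed_rp]
    · rw [mem_cds]
      refine ⟨L.map v, by rw [List.length_map]; exact hLk, ?_, rfl⟩
      intro w hw
      obtain ⟨t, ht, rfl⟩ := List.mem_map.1 hw
      exact (hwv t ht).2.1
  · -- blocking
    let y : S.Rep → F2 := xr S (L.map w').flatten
    let z : S.Rep → F2 := xr S (L.map fun t => t.2.2).flatten
    have hz : z = bd (pa S) (pb S) (ind nu) := by
      have h1 : (L.map fun t => t.2.2).flatten.toFinset = nu := by
        ext e
        rw [List.mem_toFinset]
        exact (hL.cover e).symm
      have h2 := bd_xr S (L.map fun t => t.2.2).flatten hL.nodup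
      have h3 : bd (pa S) (pb S) (ind nu) = bd (pa S) (pb S) (ind (L.map fun t => t.2.2).flatten.toFinset) := by
        congr 2
        rw [← h1]
      rw [h3]
      exact h2.symm
    have hyz : y + z ∈ LinearMap.range (dl S) := by
      apply hes'
      · rw [mem_orth]
        rintro (u | f)
        · show ∑ r : S.Rep, (y r + z r) * (if r.1.1.fst = u then 1 else 0) = 0
          have h1 := xr_vertex S (L.map w').flatten u
          have h2 := xr_vertex S (L.map fun t => t.2.2).flatten u
          simp only [add_mul, Finset.sum_add_distrib]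
          rw [h1, h2, add_zero]
        · show ∑ r : S.Rep, (y r + z r) * (if S.face r.1 = f then 1 else 0) = 0
          have h3 : ∀ L' : List (S.Face × S.Face × List (Pas G)), (∀ t ∈ L', t ∈ L) →
              ∑ r : S.Rep, (xr S (L'.map w').flatten r + xr S (L'.map fun t => t.2.2).flatten r) *
                (if S.face r.1 = f then 1 else 0) = 0 := by
            intro L' hL'
            induction L' with
            | nil =>
              apply Finset.sum_eq_zero
              intro r _
              show ((0 : S.Rep → F2) r + (0 : S.Rep → F2) r) * _ = 0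
              rw [Pi.zero_apply, add_zero, zero_mul]
            | cons t L' ih =>
              have ih' := ih (fun t ht => hL' t (List.mem_cons_of_mem _ ht))
              have ht := hL' t List.mem_cons_self
              have h4 := xr_face S (hwv t ht).1 f
              have h5 := xr_face S (hL.walk t ht) f
              rw [List.map_cons, List.flatten_cons, xr_append, List.map_cons, List.flatten_cons, xr_append]
              have h6 : ∀ r : S.Rep, ((xr S (w' t) + xr S (L'.map w').flatten) r +
                  (xr S t.2.2 + xr S (L'.map fun t => t.2.2).flatten) r) * (if S.face r.1 = f then 1 else 0) =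
                  (xr S (w' t) r * (if S.face r.1 = f then 1 else 0) +
                    xr S t.2.2 r * (if S.face r.1 = f then 1 else 0)) +
                  (xr S (L'.map w').flatten r + xr S (L'.map fun t => t.2.2).flatten r) *
                    (if S.face r.1 = f then 1 else 0) := by
                intro r
                rw [Pi.add_apply, Pi.add_apply]
                ring
              rw [Finset.sum_congr rfl (fun r _ => h6 r), Finset.sum_add_distrib, ih', Finset.sum_add_distrib, h4, h5,
                f2_add_self, add_zero]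
          exact h3 L (fun t ht => ht)
      · intro e he
        have hN : NInv S (P e) := (hP e).1
        have h1 : pr S (y + z) (P e) = pr S y (P e) + pr S z (P e) := by
          unfold Pool.Agent.EXG.pr
          rw [← Finset.sum_add_distrib]
          exact Finset.sum_congr rfl (fun r _ => by rw [Pi.add_apply, add_mul])
        rw [h1]
        have h2 : pr S y (P e) = ((L.map w').flatten.map (dP (P e))).sum := pr_xr S _ hN
        have h3 : pr S z (P e) = ((L.map fun t => t.2.2).flatten.map (dP (P e))).sum := pr_xr S _ hN
        have h4 : ∀ L' : List (S.Face × S.Face × List (Pas G)), (∀ t ∈ L', t ∈ L) →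
            ((L'.map w').flatten.map (dP (P e))).sum = ((L'.map fun t => t.2.2).flatten.map (dP (P e))).sum := by
          intro L' hL'
          induction L' with
          | nil => rfl
          | cons t L' ih =>
            have ih' := ih (fun t ht => hL' t (List.mem_cons_of_mem _ ht))
            have h5 := (hwv t (hL' t List.mem_cons_self)).2.2.1 e he
            simp only [List.map_cons, List.flatten_cons, List.map_append, List.sum_append]
            rw [ih', h5]
        rw [h2, h3, h4 L (fun t ht => ht), f2_add_self]
    refine blk_of h hκ y ?_ _ ?_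
    · have h1 : bad S κ + y = (bad S κ + bd (pa S) (pb S) (ind nu)) + (y + z) := by
        funext r
        show bad S κ r + y r = (bad S κ r + bd (pa S) (pb S) (ind nu) r) + (y r + z r)
        rw [hz]
        have h2 := f2_add_self (bd (pa S) (pb S) (ind nu) r)
        linear_combination - h2
      rw [h1]
      exact Submodule.add_mem _ hnu2 hyz
    · intro r hr
      obtain ⟨x, hx, hx'⟩ := xr_mem S _ r hr
      rw [List.mem_flatten] at hx
      obtain ⟨w0, hw0, hxw⟩ := hx
      obtain ⟨t, ht, rfl⟩ := List.mem_map.1 hw0
      have h1 := (hwv t ht).2.2.2.1 x hxw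
      rw [List.mem_flatten]
      refine ⟨v t, List.mem_map.2 ⟨t, ht, rfl⟩, ?_⟩
      rw [← hfc]
      rcases hx' with rfl | rfl
      · have h2 : S.face (pa S x).1 = pf S x := inv_rep S S.face (face_nxt S) x.1.1
        rw [h2]
        exact h1.1
      · have h2 : S.face (pb S x).1 = pg S x := inv_rep S S.face (face_nxt S) x.1.2
        rw [h2]
        exact h1.2
  · have h1 := card_visited L fc v (fun t ht => (hwv t ht).2.2.2.2)
    have h2 := hL.count
    omega

end Pool.Agent.AG
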