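import Pool.Agent.AG.Alg
import Pool.Agent.BEO.FpL
import Pool.Agent.BEO.FpO

/-!
# AG-FpK: the test for blocking sets in polynomial time
-/

set_option autoImplicit false

namespace Pool.Agent.AG

open Turing Function N487b59b3 N68a2faeb Pool.Agent.Helper22 Pool.Agent.Helper6.WB Pool.Agent.Helper47.TR Computability
open Pool.Agent.BEO

section

variable {α : Type} [N487b59b3 α]

private theorem fp_ptOk {f : α → Inp} (hf : FP f) : FP fun a => ptO (f a) := by
  have h : FP fun q : α × Pt => [(q.2, false), (q.2, true)] :=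
    FP.cons (FP.pair FP.snd (FP.const false)) (FP.cons (FP.pair FP.snd (FP.const true)) (FP.const []))
  exact fp_flat h (fp_fl hf)

private theorem fp_relBk {f : α → Inp} {W : α → List Pt} (hf : FP f) (hW : FP W) :
    FP fun a => relB (f a) (W a) := by
  have hf' : FP fun q : α × (Pt × Bool) => f q.1 := hf.comp FP.fst
  have hW' : FP fun q : α × (Pt × Bool) => W q.1 := hW.comp FP.fst
  have h2 : FP fun q : α × (Pt × Bool) => q.2 := FP.snd
  have h1 : FP fun q : α × (Pt × Bool) => q.2.1 := h2.fst'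
  have h0 : FP fun q : α × (Pt × Bool) => !q.2.2 := h2.snd'.not
  have h3 : FP fun q : α × (Pt × Bool) => look (f q.1) q.2.1 q.2.1 := fp_look hf' h1 h1
  have h4 : FP fun q : α × (Pt × Bool) => memb (W q.1) (fcl (f q.1) q.2.1) :=
    fp_memb hW' (fp_fcl hf' h1)
  have h5 : FP fun q : α × (Pt × Bool) => if memb (W q.1) (fcl (f q.1) q.2.1) = true then
      ([] : List ((Pt × Bool) × (Pt × Bool))) else [(q.2, (look (f q.1) q.2.1 q.2.1, !q.2.2))] :=
    FP.ite h4 (FP.const []) (FP.cons (FP.pair h2 (FP.pair h3 h0)) (FP.const []))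
  have h6 : FP fun q : α × (Pt × Bool) =>
      [(q.2, (sd q.2.1, !q.2.2)), (q.2, (ac q.2.1, !q.2.2))] :=
    FP.cons (FP.pair h2 (FP.pair (fp_sd h1) h0)) (FP.cons (FP.pair h2 (FP.pair (fp_ac h1) h0))
      (FP.const []))
  exact fp_flat (FP.append h5 h6) (fp_ptOk hf)

theorem fp_blk {f : α → Inp} {W : α → List Pt} (hf : FP f) (hW : FP W) : FP fun a => blk (f a) (W a) := by
  have hl : FP fun a => comp (ptO (f a)) (relB (f a) (W a)) := fp_comp (fp_ptOk hf) (fp_relBk hf hW)
  have hl' : FP fun q : α × Pt => comp (ptO (f q.1)) (relB (f q.1) (W q.1)) := hl.comp FP.fst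
  have h0 : FP fun q : α × Pt => (q.2, false) := FP.pair FP.snd (FP.const false)
  have h1 : FP fun q : α × Pt => (q.2, true) := FP.pair FP.snd (FP.const true)
  exact ((FP.any_ctx (fp_eq (fp_look hl' h0 h0) (fp_look hl' h1 h1))).comp
    (FP.pair FP.id (fp_fl hf))).not

end

end Pool.Agent.AG
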