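import Pool.Agent.AG.FpP
import Pool.Agent.AG.FpK
import Pool.Agent.BEO.FpH
import Pool.Agent.BEO.FpA

/-!
# AG-FpN: the algorithm in polynomial time

PLAN. As in `BEO/FpA.lean` (`fp_cand`, `fp_best`, `fp_nE`, `fp_nV`, `fp_alg` there; the first four are private: copy the proofs):
`fp_cds`, `fp_tup`, `fp_flat`, `fp_mapc`, `fp_max`, `fp_sub`, `fp_half`, `FP.length`, `fp_ddp`, `FP.ite`; `isPolyTime_iff`.
-/

set_option autoImplicit false

namespace Pool.Agent.AG

open Turing Function N487b59b3 N68a2faeb Pool.Agent.Helper22 Pool.Agent.Helper6.WB Pool.Agent.Helper47.TR Computability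
open Pool.Agent.BEO

section

variable {α : Type} [N487b59b3 α]

private theorem fp_candP (k : ℕ) : FP fun l : Inp => candP k l := by
  have h1 : FP fun p : Inp × List Ec => cds (wks k p.1 p.2) (3 * k) :=
    fp_cds (3 * k) (fp_wks k FP.fst FP.snd)
  have h2 : FP fun l : Inp => (fl l).map ek := FP.map (fp_ek FP.id) (fp_fl FP.id)
  exact fp_flat h1 (fp_tup k h2)

private theorem fp_bst (k : ℕ) : FP fun l : Inp => bst k l := by
  have h0 : FP fun p : Inp × List Pt => (p.1.length + 1) - (ddp p.2).length :=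
    fp_sub (FP.natAdd (FP.length FP.fst) (FP.const 1)) (FP.length (fp_ddp FP.snd))
  have h1 : FP fun p : Inp × List Pt => if blk p.1 p.2 then (p.1.length + 1) - (ddp p.2).length else 0 :=
    FP.ite (fp_blk FP.fst FP.snd) h0 (FP.const 0)
  exact fp_max (fp_mapc h1 (fp_candP k))

private theorem fp_nE : FP fun l : Inp => nE l := by
  have h1 : FP fun p : Inp × Pt => decide (p.2.1 ≤ p.2.2.1) && p.2.2.2 :=
    FP.and (FP.natLe (by fun_prop) (by fun_prop)) (by fun_prop)
  exact FP.length (fp_filt h1 (fp_fl FP.id))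

private theorem fp_nV : FP fun l : Inp => nV l :=
  FP.length (fp_ddp (FP.map FP.fst (fp_fl FP.id)))

private theorem fp_nP0 (k : ℕ) : FP fun l : Inp => nP k l :=
  fp_sub (FP.natAdd (FP.length FP.id) (FP.const 1)) (fp_bst k)

private theorem fp_egA : FP fun l : Inp => egA l :=
  fp_sub (FP.natAdd (FP.const 2) fp_nE) (FP.natAdd fp_nV (fp_nF FP.id (FP.const [])))

theorem fp_nP (k : ℕ) : IsPolyTime (nP k) := by
  rw [isPolyTime_iff]
  exact fp_nP0 k

theorem fp_algG (k : ℕ) : IsPolyTime (algG k) := by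
  rw [isPolyTime_iff]
  exact FP.ite (fp_eq (fp_nP0 k) (FP.const 0)) (fp_half fp_egA)
    (fp_half (fp_sub (FP.natAdd (fp_nP0 k) fp_egA) (FP.const 1)))

end

end Pool.Agent.AG
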