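import Pool.Agent.AG.FpZ
import Pool.Agent.BEO.FpW

/-!
# AG-FpP: the canonical walks in polynomial time
-/

set_option autoImplicit false

namespace Pool.Agent.AG

open Turing Function N487b59b3 N68a2faeb Pool.Agent.Helper22 Pool.Agent.Helper6.WB Pool.Agent.Helper47.TR Computability
open Pool.Agent.BEO

section

variable {α : Type} [N487b59b3 α]

private theorem fp_psg {f : α → Inp} (hf : FP f) : FP fun a => psg (f a) := by
  have h1 : FP fun q : (α × Pt) × Pt => decide (q.1.2.1 = q.2.1) := fp_eq (by fun_prop) (by fun_prop)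
  have h2 : FP fun q : α × Pt => (fl (f q.1)).filter fun r => decide (q.2.1 = r.1) :=
    fp_filt h1 (fp_fl (hf.comp FP.fst))
  have h3 : FP fun q : (α × Pt) × Pt => (q.1.2, q.2) := by fun_prop
  have h4 := fp_mapc h3 h2
  exact fp_flat h4 (fp_fl hf)

private theorem fp_arP (k : ℕ) {f : α → Inp} {e : α → List Ec} (hf : FP f) (he : FP e) :
    FP fun a => arP k (f a) (e a) := by
  have hf' : FP fun q : (α × (Pt × Pt)) × List Bool => f q.1.1 := hf.comp (by fun_prop)
  have he' : FP fun q : (α × (Pt × Pt)) × List Bool => e q.1.1 := he.comp (by fun_prop)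
  have hw : FP fun q : (α × (Pt × Pt)) × List Bool => q.1.2 := by fun_prop
  have hv : FP fun q : (α × (Pt × Pt)) × List Bool => q.2 := by fun_prop
  have h1 : FP fun q : (α × (Pt × Pt)) × List Bool =>
      (((fcl (f q.1.1) q.1.2.1, q.2),
        (fcl (f q.1.1) q.1.2.2, xo q.2 (lbp (f q.1.1) (e q.1.1) q.1.2))), fcl (f q.1.1) q.1.2.2) :=
    FP.pair (FP.pair (FP.pair (fp_fcl hf' (FP.fst' hw)) hv)
      (FP.pair (fp_fcl hf' (FP.snd' hw)) (fp_xo hv (fp_lbp hf' he' hw)))) (fp_fcl hf' (FP.snd' hw))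
  have h2 := fp_mapc h1 (l := fun _ : α × (Pt × Pt) => bvs k) (FP.const (bvs k))
  exact fp_flat h2 (fp_psg hf)

theorem fp_wks (k : ℕ) {f : α → Inp} {e : α → List Ec} (hf : FP f) (he : FP e) : FP fun a => wks k (f a) (e a) := by
  have hf' : FP fun q : α × Pt => f q.1 := hf.comp (by fun_prop)
  have he' : FP fun q : α × Pt => e q.1 := he.comp (by fun_prop)
  have hq' : FP fun q : α × Pt => q.2 := by fun_prop
  have h0 : FP fun q : α × Pt => [((fcl (f q.1) q.2, List.replicate k false), [fcl (f q.1) q.2])] :=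
    FP.cons (FP.pair (FP.pair (fp_fcl hf' hq') (FP.const _))
      (FP.cons (fp_fcl hf' hq') (FP.const []))) (FP.const [])
  have h1 : FP fun q : α × Pt => (bfs (arP k (f q.1) (e q.1))
      [((fcl (f q.1) q.2, List.replicate k false), [fcl (f q.1) q.2])]).map Prod.snd :=
    FP.map FP.snd (fp_bfs (fp_arP k hf' he') h0)
  exact fp_flat h1 (fp_fl hf)

end

end Pool.Agent.AG
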