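import Pool.Agent.AG.Alg
import Pool.Agent.BEO.FpL
import Pool.Agent.BEO.FpO

/-!
# AG-FpZ: the labels of the passages in polynomial time
-/

set_option autoImplicit false

namespace Pool.Agent.AG

open Turing Function N487b59b3 N68a2faeb Pool.Agent.Helper22 Pool.Agent.Helper6.WB Pool.Agent.Helper47.TR Computability
open Pool.Agent.BEO

section

variable {α : Type} [N487b59b3 α]

private theorem fp_ptOz {f : α → Inp} (hf : FP f) : FP fun a => ptO (f a) := by
  have h : FP fun q : α × Pt => [(q.2, false), (q.2, true)] :=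
    FP.cons (FP.pair FP.snd (FP.const false)) (FP.cons (FP.pair FP.snd (FP.const true)) (FP.const []))
  exact fp_flat h (fp_fl hf)

private theorem fp_zlz {f : α → Inp} {e : α → Ec} (hf : FP f) (he : FP e) :
    FP fun a => zl (f a) (e a) :=
  FP.append (fp_look (fp_tbG hf) he.fst' (FP.const []))
    (FP.cons he (fp_look (fp_tbG hf) he.snd' (FP.const [])))

private theorem fp_xorz {b c : α → Bool} (hb : FP b) (hc : FP c) : FP fun a => xor (b a) (c a) := by
  have h1 : FP fun a => !(b a == c a) := FP.not (FP.beq hb hc)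
  have h2 : (fun a => xor (b a) (c a)) = fun a => !(b a == c a) := by
    funext a
    cases b a <;> cases c a <;> rfl
  rw [h2]
  exact h1

private theorem fp_relZ {f : α → Inp} {z : α → List Ec} (hf : FP f) (hz : FP z) :
    FP fun a => relZ (f a) (z a) := by
  have hf' : FP fun q : α × (Pt × Bool) => f q.1 := hf.comp FP.fst
  have hz' : FP fun q : α × (Pt × Bool) => z q.1 := hz.comp FP.fst
  have h2 : FP fun q : α × (Pt × Bool) => q.2 := FP.snd
  have h1 : FP fun q : α × (Pt × Bool) => q.2.1 := h2.fst'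
  have h0 : FP fun q : α × (Pt × Bool) => q.2.2 := h2.snd'
  have h3 : FP fun q : α × (Pt × Bool) => look (f q.1) q.2.1 q.2.1 := fp_look hf' h1 h1
  have h4 : FP fun q : α × (Pt × Bool) => xor q.2.2 (par (z q.1) (ek q.2.1)) :=
    fp_xorz h0 (fp_par hz' (fp_ek h1))
  have h : FP fun q : α × (Pt × Bool) => [(q.2, (look (f q.1) q.2.1 q.2.1, q.2.2)),
      (q.2, (sd q.2.1, xor q.2.2 (par (z q.1) (ek q.2.1))))] :=
    FP.cons (FP.pair h2 (FP.pair h3 h0)) (FP.cons (FP.pair h2 (FP.pair (fp_sd h1) h4)) (FP.const []))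
  exact fp_flat h (fp_ptOz hf)

private theorem fp_pot {f : α → Inp} {z : α → List Ec} (hf : FP f) (hz : FP z) :
    FP fun a => pot (f a) (z a) :=
  fp_comp (fp_ptOz hf) (fp_relZ hf hz)

theorem fp_crs {f : α → Inp} {z : α → List Ec} {w : α → Pt × Pt} (hf : FP f) (hz : FP z) (hw : FP w) :
    FP fun a => crs (f a) (z a) (w a) := by
  have hl : FP fun a => pot (f a) (z a) := fp_pot hf hz
  have h1 : FP fun a => ((w a).1, false) := FP.pair hw.fst' (FP.const false)
  have h2 : FP fun a => ((w a).2, false) := FP.pair hw.snd' (FP.const false)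
  exact (fp_eq (fp_look hl h1 h1) (fp_look hl h2 h2)).not

theorem fp_lbp {f : α → Inp} {e : α → List Ec} {w : α → Pt × Pt} (hf : FP f) (he : FP e) (hw : FP w) :
    FP fun a => lbp (f a) (e a) (w a) := by
  have h : FP fun q : α × Ec => crs (f q.1) (zl (f q.1) q.2) (w q.1) :=
    fp_crs (hf.comp FP.fst) (fp_zlz (hf.comp FP.fst) FP.snd) (hw.comp FP.fst)
  exact fp_mapc h he

end

end Pool.Agent.AG
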