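import Pool.Agent.AG.AlgS
import Pool.Agent.AG.FpN
import Pool.Agent.BEO.CntS
import Pool.Agent.BEO.GenB
import Pool.Agent.EXG.Main

/-!
# AG: the approximation of the orientable genus
-/

set_option autoImplicit false

open Finset
open scoped Classical

namespace Pool.Agent.AG

open Pool.Agent.Helper35.OG Pool.Agent.Helper58.OG N68a2faeb
open Pool.Agent.BEO (Codes Inp Pt ddp nE nV nF nE_eq nV_eq nF_eq twist_nil gen_le)

theorem egA_eq {n : ℕ} {G : SimpleGraph (Fin n)} {S : GMap G} {l : Inp} (h : Codes S l) (hG : G.Connected) (hn : 2 ≤ n) :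
    (egA l : ℤ) = S.eg := by
  have hnt : Nontrivial (Fin n) := Fin.nontrivial_iff_two_le.2 hn
  have h0 : ((([] : List (S.Face × S.Face)).length : ℕ) : ℤ) ≤ S.eg :=
    tri_bound S S hG [] (by intro p hp; simp at hp) List.Pairwise.nil
  have h1 : (0 : ℤ) ≤ S.eg := h0
  have h2 := nE_eq h
  have h3 := nV_eq h hG hn
  have h4 := nF_eq h hG hn []
  rw [twist_nil] at h4
  have hcard : Nat.card (Fin n) = n := by simp
  unfold GMap.eg at h1 ⊢
  rw [hcard] at h1 ⊢
  unfold egA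
  omega

theorem main (k : ℕ) : ∃ f g : Inp → ℕ, IsPolyTime f ∧ IsPolyTime g ∧ ∀ (n : ℕ) (G : SimpleGraph (Fin n)), G.Connected →
    2 ≤ n → ∀ S : GMap G, S.eg ≤ k → ∀ l, Codes S l → g l = faceDefect S ∧ orientableGenus G ≤ f l ∧
      2 * (f l : ℤ) ≤ 2 * (orientableGenus G : ℤ) + 3 * S.eg ∧
      (¬ S.Orientable → 3 ≤ faceDefect S → (S.eg = 1 ∨ EXG.SplitWidth S ((faceDefect S : ℤ) + 4 * S.eg + 9)) →
        f l = orientableGenus G) ∧
      ∃ M : GMap G, M.Orientable ∧ M.eg = 2 * (orientableGenus G : ℤ) := by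
  refine ⟨algG k, nP k, fp_algG k, fp_nP k, ?_⟩
  intro n G hG hn S hk l h
  have hnt : Nontrivial (Fin n) := Fin.nontrivial_iff_two_le.2 hn
  have h1 := nP_eq h hG hn k hk
  have h2 := egA_eq h hG hn
  have h3 := fd_zero S
  refine ⟨h1, ?_⟩
  by_cases hS : S.Orientable
  · have h4 : nP k l = 0 := by rw [h1, h3]; exact hS
    have h5 : algG k l = egA l / 2 := by
      unfold algG
      rw [if_pos (by simp [h4])]
    obtain ⟨g, hg1, hg2⟩ := gen_le hG S hS
    refine ⟨?_, ?_, fun h6 => absurd hS h6, ?_⟩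
    · rw [h5]
      omega
    · rw [h5]
      omega
    · have hmem : orientableGenus G ∈ {g : ℕ | ∃ M : GMap G, M.Orientable ∧ M.eg = 2 * (g : ℤ)} :=
        Nat.sInf_mem ⟨g, S, hS, hg1⟩
      exact hmem
  · have h4 : faceDefect S ≠ 0 := fun h' => hS (h3.1 h')
    have h5 : algG k l = (faceDefect S + egA l - 1) / 2 := by
      unfold algG
      rw [if_neg (by rw [h1]; simp [h4]), h1]
    obtain ⟨T, hT, hTeg⟩ := upper_bound S hS
    obtain ⟨g, hg1, hg2⟩ := gen_le hG T hT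
    have h6 : ∃ M : GMap G, M.Orientable ∧ M.eg = 2 * (orientableGenus G : ℤ) := by
      have hmem : orientableGenus G ∈ {g : ℕ | ∃ M : GMap G, M.Orientable ∧ M.eg = 2 * (g : ℤ)} :=
        Nat.sInf_mem ⟨g, T, hT, hg1⟩
      exact hmem
    refine ⟨?_, ?_, ?_, h6⟩
    · rw [h5]
      omega
    · obtain ⟨M, hM, hMeg⟩ := h6
      obtain ⟨h7, -⟩ := lower_bounds hG S M hM
      rw [h5]
      omega
    · intro _ h8 h9
      obtain ⟨-, h10⟩ := EXG.main G hG S hS h8 h9
      rw [h5]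
      omega

end Pool.Agent.AG
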