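import Pool.Agent.AG.Defs
import Pool.Agent.BEO.FacS
import Pool.Agent.BEO.TreS

/-!
# AG-PotS: the labels of the passages are correct
-/

set_option autoImplicit false

open Finset
open scoped Classical

namespace Pool.Agent.AG

open Pool.Agent.Helper35.OG Pool.Agent.Helper58.OG
open Pool.Agent.BEO (DW IsL Codes cod ec ed rp pc cyc Inp Pt Ec fl fcl look memb ddp comp bfs tup cds bvs ptO sd ac ek zl xo)

variable {n : ℕ} {G : SimpleGraph (Fin n)}

private theorem pots_mem {S : GMap G} {l : Inp} (h : Codes S l) (x : Pt) (b : Bool) :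
    (x, b) ∈ ptO l ↔ ∃ p : Flag G, x = cod p := by
  rw [← BEO.mem_fl h]
  unfold ptO
  rw [List.mem_flatMap]
  constructor
  · rintro ⟨p, hp, hx⟩
    simp only [List.mem_cons, List.not_mem_nil, or_false, Prod.mk.injEq] at hx
    rcases hx with hx | hx
    · rw [hx.1]; exact hp
    · rw [hx.1]; exact hp
  · intro hx
    refine ⟨x, hx, ?_⟩
    cases b <;> simp

private theorem pots_rel {S : GMap G} {l : Inp} (h : Codes S l) (z : List Ec) (x y : Pt × Bool) :
    (x, y) ∈ relZ l z ↔ ∃ (p : Flag G) (b : Bool), x = (cod p, b) ∧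
      (y = (cod (S.nxt p), b) ∨ y = (cod (side p), xor b (BEO.par z (ec (ed p))))) := by
  unfold relZ
  rw [List.mem_flatMap]
  constructor
  · rintro ⟨q, hq, hx⟩
    obtain ⟨p, hp⟩ := (pots_mem h q.1 q.2).1 hq
    refine ⟨p, q.2, ?_⟩
    simp only [List.mem_cons, List.not_mem_nil, or_false, Prod.mk.injEq] at hx
    rw [hp, BEO.look_cod h, BEO.sd_cod, BEO.ek_cod] at hx
    have hq' : q = (cod p, q.2) := by rw [← hp]
    rcases hx with hx | hx
    · exact ⟨hx.1.trans hq', Or.inl hx.2⟩
    · exact ⟨hx.1.trans hq', Or.inr hx.2⟩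
  · rintro ⟨p, b, hx, hy⟩
    refine ⟨(cod p, b), (pots_mem h _ _).2 ⟨p, rfl⟩, ?_⟩
    simp only [List.mem_cons, List.not_mem_nil, or_false, Prod.mk.injEq]
    rw [BEO.look_cod h, BEO.sd_cod, BEO.ek_cod]
    rcases hy with hy | hy
    · exact Or.inl ⟨hx, hy⟩
    · exact Or.inr ⟨hx, hy⟩

private theorem pots_bit (a b : ZMod 2) (c : Bool) (h : b = if c = true then 1 else 0) :
    xor (decide (a = 1)) c = decide (a + b = 1) := by
  subst h
  revert a c
  decide

private theorem pots_gen {S : GMap G} {l : Inp} (h : Codes S l) (z : List Ec) (P : Flag G → F2)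
    (hP : IsL S (pc z) P) (p q : Flag G) (hpq : p.1.fst = q.1.fst) :
    Relation.EqvGen (fun a b => (a, b) ∈ relZ l z) (cod p, false) (cod q, decide (P p + P q = 1)) := by
  have key := vertex_const S (fun q => Relation.EqvGen (fun a b => (a, b) ∈ relZ l z) (cod p, false)
    (cod q, decide (P p + P q = 1))) ?_ ?_ hpq
  · have h0 : decide (P p + P p = 1) = false := by
      rw [CharTwo.add_self_eq_zero]
      decide
    have h1 : Relation.EqvGen (fun a b => (a, b) ∈ relZ l z) (cod p, false)
        (cod p, decide (P p + P p = 1)) := by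
      rw [h0]
      exact Relation.EqvGen.refl _
    exact Eq.mp key h1
  · intro q
    have h1 : Relation.EqvGen (fun a b => (a, b) ∈ relZ l z) (cod q, decide (P p + P q = 1))
        (cod (S.nxt q), decide (P p + P (S.nxt q) = 1)) := by
      rw [hP.1 q]
      exact Relation.EqvGen.rel _ _ ((pots_rel h z _ _).2 ⟨q, _, rfl, Or.inl rfl⟩)
    exact propext ⟨fun h2 => h2.trans _ _ _ (h1.symm _ _), fun h2 => h2.trans _ _ _ h1⟩
  · intro q
    have h1 : Relation.EqvGen (fun a b => (a, b) ∈ relZ l z) (cod q, decide (P p + P q = 1))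
        (cod (side q), decide (P p + P (side q) = 1)) := by
      have e1 : P p + P (side q) = (P p + P q) + pc z (ed q) := by
        have h3 := hP.2 q
        have h4 : P q + P q = 0 := CharTwo.add_self_eq_zero _
        linear_combination h3 - h4
      have e2 : decide (P p + P (side q) = 1) =
          xor (decide (P p + P q = 1)) (BEO.par z (ec (ed q))) := by
        rw [e1]
        exact (pots_bit (P p + P q) (pc z (ed q)) (BEO.par z (ec (ed q))) rfl).symm
      rw [e2]
      exact Relation.EqvGen.rel _ _ ((pots_rel h z _ _).2 ⟨q, _, rfl, Or.inr rfl⟩)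
    exact propext ⟨fun h2 => h2.trans _ _ _ (h1.symm _ _), fun h2 => h2.trans _ _ _ h1⟩

private theorem pots_inv {S : GMap G} {l : Inp} (h : Codes S l) (z : List Ec) (P : Flag G → F2)
    (hP : IsL S (pc z) P) (p q : Flag G)
    (hR : Relation.EqvGen (fun a b => (a, b) ∈ relZ l z) (cod p, false) (cod q, false)) :
    P p = P q := by
  have hW : ∃ W : Pt × Bool → F2, ∀ (p : Flag G) (b : Bool), W (cod p, b) = P p + if b then 1 else 0 := by
    refine ⟨fun x => if hx : ∃ p : Flag G, x.1 = cod p then P hx.choose + (if x.2 then 1 else 0) else 0, ?_⟩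
    intro p b
    have hx : ∃ q : Flag G, ((cod p, b) : Pt × Bool).1 = cod q := ⟨p, rfl⟩
    have e : hx.choose = p := (BEO.cod_inj hx.choose_spec).symm
    show (if hx : ∃ p_1 : Flag G, ((cod p, b) : Pt × Bool).1 = cod p_1 then
      P hx.choose + (if ((cod p, b) : Pt × Bool).2 then 1 else 0) else 0) = _
    rw [dif_pos hx, e]
  obtain ⟨W, hW⟩ := hW
  have h1 := eqvGen_eq W (r := fun a b => (a, b) ∈ relZ l z) ?_ hR
  · rw [hW, hW] at h1
    simpa using h1
  · intro x y hxy
    obtain ⟨p, b, hx, hy⟩ := (pots_rel h z x y).1 hxy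
    rcases hy with hy | hy
    · rw [hx, hy, hW, hW, hP.1]
    · rw [hx, hy, hW, hW]
      have h3 := hP.2 p
      have h4 : P p + P p = 0 := CharTwo.add_self_eq_zero _
      have h5 : pc z (ed p) = if BEO.par z (ec (ed p)) = true then 1 else 0 := rfl
      have e1 : P (side p) = P p + pc z (ed p) := by
        linear_combination h3 - h4
      rw [e1, h5]
      generalize P p = u
      generalize BEO.par z (ec (ed p)) = v
      have h6 : ∀ (u : ZMod 2) (b v : Bool), (u + if b = true then 1 else 0) =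
          (u + if v = true then 1 else 0) + if (xor b v) = true then 1 else 0 := by decide
      exact h6 u b v

theorem crs_iff {S : GMap G} {l : Inp} (h : Codes S l) (z : List Ec) (P : Flag G → F2) (hP : IsL S (pc z) P)
    (p q : Flag G) (hpq : p.1.fst = q.1.fst) : crs l z (cod p, cod q) = true ↔ P p + P q = 1 := by
  have hrel : ∀ r ∈ relZ l z, r.1 ∈ ptO l ∧ r.2 ∈ ptO l := by
    rintro ⟨x, y⟩ hr
    obtain ⟨p, b, hx, hy⟩ := (pots_rel h z x y).1 hr
    refine ⟨?_, ?_⟩
    · simp only; rw [hx]; exact (pots_mem h _ _).2 ⟨p, rfl⟩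
    · rcases hy with hy | hy
      · simp only; rw [hy]; exact (pots_mem h _ _).2 ⟨_, rfl⟩
      · simp only; rw [hy]; exact (pots_mem h _ _).2 ⟨_, rfl⟩
  have hlook := BEO.comp_look (ptO l) (relZ l z) hrel (cod p, false) (cod q, false)
    ((pots_mem h _ _).2 ⟨p, rfl⟩) ((pots_mem h _ _).2 ⟨q, rfl⟩)
  have hc : crs l z (cod p, cod q) = true ↔
      ¬ Relation.EqvGen (fun a b => (a, b) ∈ relZ l z) (cod p, false) (cod q, false) := by
    rw [← hlook]
    unfold crs pot
    simp only [Bool.not_eq_true', decide_eq_false_iff_not]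
  rw [hc]
  constructor
  · intro h1
    by_contra h2
    apply h1
    have h3 := pots_gen h z P hP p q hpq
    have h4 : decide (P p + P q = 1) = false := decide_eq_false h2
    rwa [h4] at h3
  · intro h1 h2
    rw [pots_inv h z P hP p q h2, CharTwo.add_self_eq_zero] at h1
    exact zero_ne_one h1

end Pool.Agent.AG
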