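import Mathlib

/-!
# AG-Sep: few functionals separate the points of a space of small dimension (Mathlib only)
-/

set_option autoImplicit false

namespace Pool.Agent.AG

private theorem sep_sub {M E : Type} [AddCommGroup M] [Module (ZMod 2) M] [Module.Finite (ZMod 2) M] [Nonempty E]
    (f : E → M →ₗ[ZMod 2] ZMod 2) (hf : ∀ x, (∀ e, f e x = 0) → x = 0) (k : ℕ) :
    ∀ K : Submodule (ZMod 2) M, Module.finrank (ZMod 2) K ≤ k →
      ∃ es : List E, es.length = k ∧ ∀ x ∈ K, (∀ e ∈ es, f e x = 0) → x = 0 := by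
  induction k with
  | zero =>
    intro K hK
    have h0 : K = ⊥ := Submodule.finrank_eq_zero.mp (Nat.le_zero.mp hK)
    refine ⟨[], rfl, fun x hx _ => ?_⟩
    rw [h0] at hx
    exact (Submodule.mem_bot _).mp hx
  | succ k ih =>
    intro K hK
    by_cases hb : K = ⊥
    · refine ⟨List.replicate (k + 1) (Classical.arbitrary E), List.length_replicate, fun x hx _ => ?_⟩
      rw [hb] at hx
      exact (Submodule.mem_bot _).mp hx
    · obtain ⟨x0, hx0, hne⟩ := Submodule.exists_mem_ne_zero_of_ne_bot hb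
      have h1 : ∃ e, f e x0 ≠ 0 := by
        by_contra hcon
        push Not at hcon
        exact hne (hf x0 hcon)
      obtain ⟨e, he⟩ := h1
      have h2 : K ⊓ LinearMap.ker (f e) < K := by
        refine lt_of_le_of_ne inf_le_left fun h => ?_
        have h3 : x0 ∈ K ⊓ LinearMap.ker (f e) := by rw [h]; exact hx0
        exact he (LinearMap.mem_ker.mp h3.2)
      have h3 := Submodule.finrank_lt_finrank_of_lt h2
      obtain ⟨es, hes, h4⟩ := ih (K ⊓ LinearMap.ker (f e)) (by omega)
      refine ⟨e :: es, by rw [List.length_cons, hes], fun x hx h5 => ?_⟩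
      exact h4 x ⟨hx, LinearMap.mem_ker.mpr (h5 e List.mem_cons_self)⟩
        (fun e' he' => h5 e' (List.mem_cons_of_mem _ he'))

theorem exists_sep {M E : Type} [AddCommGroup M] [Module (ZMod 2) M] [Module.Finite (ZMod 2) M] [Nonempty E] (k : ℕ)
    (hM : Module.finrank (ZMod 2) M ≤ k) (f : E → M →ₗ[ZMod 2] ZMod 2) (hf : ∀ x, (∀ e, f e x = 0) → x = 0) :
    ∃ es : List E, es.length = k ∧ ∀ x, (∀ e ∈ es, f e x = 0) → x = 0 := by
  obtain ⟨es, h1, h2⟩ := sep_sub f hf k ⊤ (by rw [finrank_top]; exact hM)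
  exact ⟨es, h1, fun x hx => h2 x Submodule.mem_top hx⟩

end Pool.Agent.AG
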