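import Pool.Agent.AG.PotS
import Pool.Agent.BEO.BfsS

/-!
# AG-WksS: the canonical walks
-/

set_option autoImplicit false

open Finset
open scoped Classical

namespace Pool.Agent.AG

open Pool.Agent.Helper35.OG Pool.Agent.Helper58.OG
open Pool.Agent.BEO (DW IsL Codes cod ec ed rp pc cyc Inp Pt Ec fl fcl look memb ddp comp bfs tup cds bvs ptO sd ac ek zl xo)

variable {n : ℕ} {G : SimpleGraph (Fin n)}

/-- the label of a list of passages -/
private noncomputable def wkLab (P : G.edgeSet → Flag G → F2) (es : List G.edgeSet) (w : List (Pas G)) :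
    List Bool := es.map fun e => decide ((w.map (dP (P e))).sum = 1)

private theorem wk_dec (a b : F2) : decide (a + b = 1) = xor (decide (a = 1)) (decide (b = 1)) := by
  have h : ∀ a b : F2, (a + b = 1) ↔ ¬ ((a = 1) ↔ (b = 1)) := by decide
  have h1 := h a b
  by_cases ha : a = 1 <;> by_cases hb : b = 1 <;> simp [ha, hb] at h1 ⊢
  all_goals exact h1

private theorem wk_eq (a b : F2) (h : decide (a = 1) = decide (b = 1)) : a = b := by
  have h0 : ∀ a b : F2, ((a = 1) ↔ (b = 1)) → a = b := by decide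
  refine h0 a b ?_
  rw [← decide_eq_true_iff (p := a = 1), h, decide_eq_true_iff]

private theorem wkLab_nil (P : G.edgeSet → Flag G → F2) (es : List G.edgeSet) (k : ℕ) (hes : es.length = k) :
    wkLab P es [] = List.replicate k false := by
  unfold wkLab
  rw [List.eq_replicate_iff]
  refine ⟨by rw [List.length_map, hes], fun b hb => ?_⟩
  obtain ⟨e, _, rfl⟩ := List.mem_map.1 hb
  simp

private theorem wkLab_snoc (P : G.edgeSet → Flag G → F2) (es : List G.edgeSet) (w : List (Pas G)) (x : Pas G) :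
    wkLab P es (w ++ [x]) = xo (wkLab P es w) (wkLab P es [x]) := by
  unfold wkLab xo
  rw [List.zipWith_map, List.zipWith_self]
  refine List.map_congr_left fun e _ => ?_
  rw [List.map_append, List.sum_append, wk_dec]

private theorem wkLab_mem (P : G.edgeSet → Flag G → F2) (es : List G.edgeSet) (k : ℕ) (hes : es.length = k)
    (w : List (Pas G)) : wkLab P es w ∈ bvs k := by
  unfold bvs
  rw [Pool.Agent.BEO.mem_tup]
  refine ⟨?_, fun x _ => ?_⟩
  · unfold wkLab
    rw [List.length_map, hes]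
  · cases x <;> simp

private theorem wkLab_eq (P : G.edgeSet → Flag G → F2) (es : List G.edgeSet) (w w' : List (Pas G))
    (h : wkLab P es w = wkLab P es w') (e : G.edgeSet) (he : e ∈ es) :
    (w.map (dP (P e))).sum = (w'.map (dP (P e))).sum := by
  unfold wkLab at h
  exact wk_eq _ _ (List.map_inj_left.1 h e he)

private theorem wk_lbp {S : GMap G} {l : Inp} (h : Codes S l) (es : List G.edgeSet)
    (P : G.edgeSet → Flag G → F2) (hP : ∀ e, IsL S (pc (zl l (ec e))) (P e)) (x : Pas G) :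
    lbp l (es.map ec) (cod x.1.1, cod x.1.2) = wkLab P es [x] ∧
      lbp l (es.map ec) (cod x.1.2, cod x.1.1) = wkLab P es [x] := by
  have key : ∀ p q : Flag G, p.1.fst = q.1.fst → ∀ e : G.edgeSet, P e p + P e q = dP (P e) x →
      crs l (zl l (ec e)) (cod p, cod q) = decide (([x].map (dP (P e))).sum = 1) := by
    intro p q hpq e he
    have h1 := crs_iff h (zl l (ec e)) (P e) (hP e) p q hpq
    rw [List.map_cons, List.map_nil, List.sum_cons, List.sum_nil, add_zero, ← he]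
    rw [Bool.eq_iff_iff, h1, decide_eq_true_iff]
  unfold lbp wkLab
  rw [List.map_map, List.map_map]
  refine ⟨List.map_congr_left fun e _ => ?_, List.map_congr_left fun e _ => ?_⟩
  · exact key _ _ x.2 e rfl
  · exact key _ _ x.2.symm e (add_comm _ _)

private theorem wk_psg {S : GMap G} {l : Inp} (h : Codes S l) (w : Pt × Pt) :
    w ∈ psg l ↔ ∃ p q : Flag G, p.1.fst = q.1.fst ∧ w = (cod p, cod q) := by
  unfold psg
  rw [List.mem_flatMap]
  constructor
  · rintro ⟨c, hc, hw⟩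
    rw [List.mem_map] at hw
    obtain ⟨d, hd, rfl⟩ := hw
    rw [List.mem_filter] at hd
    obtain ⟨p, rfl⟩ := (Pool.Agent.BEO.mem_fl h c).1 hc
    obtain ⟨q, rfl⟩ := (Pool.Agent.BEO.mem_fl h d).1 hd.1
    refine ⟨p, q, ?_, rfl⟩
    have := of_decide_eq_true hd.2
    exact Fin.ext this
  · rintro ⟨p, q, hpq, rfl⟩
    refine ⟨cod p, (Pool.Agent.BEO.mem_fl h _).2 ⟨p, rfl⟩, ?_⟩
    rw [List.mem_map]
    refine ⟨cod q, ?_, rfl⟩
    rw [List.mem_filter]
    refine ⟨(Pool.Agent.BEO.mem_fl h _).2 ⟨q, rfl⟩, decide_eq_true ?_⟩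
    exact congrArg Fin.val hpq

/-- an arc -/
private theorem wk_arc {S : GMap G} {l : Inp} (h : Codes S l) (k : ℕ) (es : List G.edgeSet)
    (hes : es.length = k) (P : G.edgeSet → Flag G → F2) (hP : ∀ e, IsL S (pc (zl l (ec e))) (P e))
    (fc : S.Face → Pt) (hfc : ∀ p, fc (S.face p) = fcl l (cod p)) (F H : S.Face) (x : Pas G)
    (hx : (pf S x = F ∧ pg S x = H) ∨ (pf S x = H ∧ pg S x = F)) (u : List (Pas G)) :
    (((fc F, wkLab P es u), (fc H, wkLab P es (u ++ [x]))), fc H) ∈ arP k l (es.map ec) := by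
  obtain ⟨h1, h2⟩ := wk_lbp h es P hP x
  unfold arP
  rw [List.mem_flatMap]
  rcases hx with ⟨h3, h4⟩ | ⟨h3, h4⟩
  · refine ⟨(cod x.1.1, cod x.1.2), (wk_psg h _).2 ⟨_, _, x.2, rfl⟩, ?_⟩
    rw [List.mem_map]
    refine ⟨wkLab P es u, wkLab_mem P es k hes u, ?_⟩
    rw [h1, ← wkLab_snoc, ← hfc, ← hfc, ← h3, ← h4]
    rfl
  · refine ⟨(cod x.1.2, cod x.1.1), (wk_psg h _).2 ⟨_, _, x.2.symm, rfl⟩, ?_⟩
    rw [List.mem_map]
    refine ⟨wkLab P es u, wkLab_mem P es k hes u, ?_⟩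
    rw [h2, ← wkLab_snoc, ← hfc, ← hfc, ← h3, ← h4]
    rfl

/-- every arc comes from a passage -/
private theorem wk_back {S : GMap G} {l : Inp} (h : Codes S l) (k : ℕ) (es : List G.edgeSet)
    (P : G.edgeSet → Flag G → F2) (hP : ∀ e, IsL S (pc (zl l (ec e))) (P e))
    (fc : S.Face → Pt) (hfc : ∀ p, fc (S.face p) = fcl l (cod p)) (y z : Pt × List Bool) (m : Pt)
    (ha : ((y, z), m) ∈ arP k l (es.map ec)) : ∃ (x : Pas G) (v : List Bool),
      y = (fc (pf S x), v) ∧ z = (fc (pg S x), xo v (wkLab P es [x])) ∧ m = fc (pg S x) := by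
  unfold arP at ha
  rw [List.mem_flatMap] at ha
  obtain ⟨c, hc, ha⟩ := ha
  rw [List.mem_map] at ha
  obtain ⟨v, -, ha⟩ := ha
  obtain ⟨p, q, hpq, rfl⟩ := (wk_psg h _).1 hc
  have h1 := (wk_lbp h es P hP ⟨(p, q), hpq⟩).1
  refine ⟨⟨(p, q), hpq⟩, v, ?_, ?_, ?_⟩
  · have h2 : (fcl l (cod p), v) = y := congrArg (fun t => t.1.1) ha
    rw [← h2, ← hfc]
    rfl
  · have h2 : (fcl l (cod q), xo v (lbp l (es.map ec) (cod p, cod q))) = z := congrArg (fun t => t.1.2) ha
    rw [← h2, ← hfc]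
    exact congrArg (fun t => (fc (S.face q), xo v t)) h1
  · have h2 : fcl l (cod q) = m := congrArg (fun t => t.2) ha
    rw [← h2, ← hfc]
    rfl

/-- walks are walks of `arP` -/
private theorem wk_aw {S : GMap G} {l : Inp} (h : Codes S l) (k : ℕ) (es : List G.edgeSet)
    (hes : es.length = k) (P : G.edgeSet → Flag G → F2) (hP : ∀ e, IsL S (pc (zl l (ec e))) (P e))
    (fc : S.Face → Pt) (hfc : ∀ p, fc (S.face p) = fcl l (cod p)) {F H : S.Face} {w : List (Pas G)}
    (hw : DW (pf S) (pg S) F H w) : ∀ (u : List (Pas G)) (x0 : Pt × List Bool) (l0 : List Pt),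
      Pool.Agent.BEO.AW (arP k l (es.map ec)) x0 (fc F, wkLab P es u) l0 →
      ∃ l1 : List Pt, l1.length = w.length ∧
        Pool.Agent.BEO.AW (arP k l (es.map ec)) x0 (fc H, wkLab P es (u ++ w)) (l0 ++ l1) := by
  induction hw with
  | nil F =>
    intro u x0 l0 hA
    refine ⟨[], rfl, ?_⟩
    rw [List.append_nil, List.append_nil]
    exact hA
  | cons F G1 H e w1 he _ ih =>
    intro u x0 l0 hA
    have h1 := wk_arc h k es hes P hP fc hfc F G1 e he u
    have h2 := Pool.Agent.BEO.AW.snoc _ _ _ _ _ hA h1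
    obtain ⟨l1, h3, h4⟩ := ih (u ++ [e]) x0 (l0 ++ [fc G1]) h2
    refine ⟨fc G1 :: l1, ?_, ?_⟩
    · rw [List.length_cons, List.length_cons, h3]
    · rw [List.append_assoc, List.append_assoc] at h4
      exact h4

/-- walks of `arP` are walks -/
private theorem wk_dw {S : GMap G} {l : Inp} (h : Codes S l) (k : ℕ) (es : List G.edgeSet)
    (P : G.edgeSet → Flag G → F2) (hP : ∀ e, IsL S (pc (zl l (ec e))) (P e))
    (fc : S.Face → Pt) (hfc : ∀ p, fc (S.face p) = fcl l (cod p)) (hinj : ∀ A B, fc A = fc B → A = B)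
    (F : S.Face) {x y : Pt × List Bool} {l1 : List Pt}
    (hA : Pool.Agent.BEO.AW (arP k l (es.map ec)) x y l1) :
    x = (fc F, wkLab P es []) → ∃ (w1 : List (Pas G)) (H : S.Face), DW (pf S) (pg S) F H w1 ∧
      y = (fc H, wkLab P es w1) ∧ ((l1 = [] ∧ H = F) ∨ ∃ m, l1 = m ++ [fc H]) ∧
      ∀ x ∈ w1, fc (pf S x) ∈ fc F :: l1 ∧ fc (pg S x) ∈ fc F :: l1 := by
  induction hA with
  | nil =>
    intro hx
    exact ⟨[], F, DW.nil _, hx, Or.inl ⟨rfl, rfl⟩, fun x hx => absurd hx List.not_mem_nil⟩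
  | snoc y z i l0 _ hi ih =>
    intro hx
    obtain ⟨w1, H, hD, hy, hl, hm⟩ := ih hx
    obtain ⟨x, v, h1, h2, h3⟩ := wk_back h k es P hP fc hfc y z i hi
    rw [hy] at h1
    have h4 : H = pf S x := hinj _ _ (congrArg Prod.fst h1)
    have h5 : wkLab P es w1 = v := congrArg Prod.snd h1
    have h6 : fc H ∈ fc F :: l0 := by
      rcases hl with ⟨_, h7⟩ | ⟨m, h7⟩
      · rw [h7]
        exact List.mem_cons_self
      · rw [h7]
        exact List.mem_cons_of_mem _ (List.mem_append_right _ List.mem_cons_self)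
    have h8 : ∀ a, a ∈ fc F :: l0 → a ∈ fc F :: (l0 ++ [i]) := by
      intro a ha
      rw [← List.cons_append]
      exact List.mem_append_left _ ha
    refine ⟨w1 ++ [x], pg S x, DW.snoc hD (Or.inl ⟨h4.symm, rfl⟩), ?_, Or.inr ⟨l0, ?_⟩, ?_⟩
    · rw [wkLab_snoc, h5, h2]
    · rw [h3]
    · intro a ha
      rw [List.mem_append] at ha
      rcases ha with ha | ha
      · exact ⟨h8 _ (hm a ha).1, h8 _ (hm a ha).2⟩
      · rw [List.mem_singleton] at ha
        rw [ha, ← h4, ← h3]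
        refine ⟨h8 _ h6, ?_⟩
        exact List.mem_cons_of_mem _ (List.mem_append_right _ List.mem_cons_self)

theorem wks_complete {S : GMap G} {l : Inp} (h : Codes S l) (k : ℕ) (es : List G.edgeSet) (hes : es.length = k)
    (P : G.edgeSet → Flag G → F2) (hP : ∀ e, IsL S (pc (zl l (ec e))) (P e)) (fc : S.Face → Pt)
    (hfc : ∀ p, fc (S.face p) = fcl l (cod p)) (F H : S.Face) (w : List (Pas G)) (hw : DW (pf S) (pg S) F H w) :
    ∃ (w' : List (Pas G)) (v : List Pt), DW (pf S) (pg S) F H w' ∧ v ∈ wks k l (es.map ec) ∧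
      (∀ e ∈ es, (w'.map (dP (P e))).sum = (w.map (dP (P e))).sum) ∧
      (∀ x ∈ w', fc (pf S x) ∈ v ∧ fc (pg S x) ∈ v) ∧
      (v = [fc F] ∨ ∃ m, v = fc F :: (m ++ [fc H]) ∧ m.length + 1 ≤ w.length) := by
  have hinj : ∀ A B, fc A = fc B → A = B := by
    intro A B hAB
    obtain ⟨p, rfl⟩ := face_surj S A
    obtain ⟨q, rfl⟩ := face_surj S B
    rw [hfc, hfc] at hAB
    exact (Pool.Agent.BEO.fcl_iff h p q).1 hAB
  obtain ⟨p0, hp0⟩ := face_surj S F
  have hF : fcl l (cod p0) = fc F := by rw [← hfc, hp0]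
  obtain ⟨l1, hl1, hA⟩ := wk_aw h k es hes P hP fc hfc hw [] (fc F, wkLab P es []) []
    (Pool.Agent.BEO.AW.nil _)
  rw [List.nil_append, List.nil_append] at hA
  obtain ⟨v, hv, hlen⟩ := Pool.Agent.BEO.bfs_complete (arP k l (es.map ec))
    [((fc F, wkLab P es []), [fc F])] 1 (by
      intro e he
      rw [List.mem_singleton] at he
      rw [he]
      rfl) (fc F, wkLab P es []) (fc H, wkLab P es w) [fc F] l1 List.mem_cons_self hA
  obtain ⟨x, l0', l1', hx, hA1, hl⟩ := Pool.Agent.BEO.bfs_sound _ _ _ _ hv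
  rw [List.mem_singleton] at hx
  have hx1 : x = (fc F, wkLab P es []) := congrArg Prod.fst hx
  have hx2 : l0' = [fc F] := congrArg Prod.snd hx
  obtain ⟨w1, H1, hD, hy, hc, hm⟩ := wk_dw h k es P hP fc hfc hinj F hA1 hx1
  have hH : H = H1 := hinj _ _ (congrArg Prod.fst hy)
  have hlab : wkLab P es w = wkLab P es w1 := congrArg Prod.snd hy
  subst hH
  have hv' : v = fc F :: l1' := by rw [hl, hx2]; rfl
  refine ⟨w1, v, hD, ?_, fun e he => (wkLab_eq P es w w1 hlab e he).symm, ?_, ?_⟩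
  · unfold wks
    rw [List.mem_flatMap]
    refine ⟨cod p0, (Pool.Agent.BEO.mem_fl h _).2 ⟨p0, rfl⟩, ?_⟩
    rw [List.mem_map]
    refine ⟨((fc H, wkLab P es w), v), ?_, rfl⟩
    rw [hF, ← wkLab_nil P es k hes]
    exact hv
  · intro a ha
    rw [hv']
    exact hm a ha
  · rcases hc with ⟨h1, _⟩ | ⟨m, h1⟩
    · left
      rw [hv', h1]
    · right
      refine ⟨m, by rw [hv', h1], ?_⟩
      rw [hv', h1, List.length_cons, List.length_append, List.length_singleton, hl1] at hlen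
      omega

end Pool.Agent.AG
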